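import Mathlib

/-!
# Sylvester type sequences and multiplicative independence
-/

namespace Pool.Agent.R646.B

/-- the running products of the Sylvester type sequence -/
def sylP {K : Type*} [CommRing K] (x : K) : ℕ → K
  | 0 => 1
  | n + 1 => sylP x n * (1 + x * sylP x n)

/-- the Sylvester type sequence `s_n = 1 + x * s_0 * ... * s_(n-1)` -/
def syl {K : Type*} [CommRing K] (x : K) (n : ℕ) : K := 1 + x * sylP x n

theorem syl_dvd {K : Type*} [CommRing K] (x : K) {i n : ℕ} (h : i < n) :
    syl x i ∣ sylP x n := by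
  induction n with
  | zero => omega
  | succ n ih =>
    rcases Nat.lt_succ_iff_lt_or_eq.1 h with h | h
    · exact (ih h).mul_right _
    · subst h; exact Dvd.intro_left _ rfl

theorem syl_coprime_lt {K : Type*} [CommRing K] (x : K) {i j : ℕ} (h : i < j) :
    IsCoprime (syl x i) (syl x j) := by
  obtain ⟨c, hc⟩ := syl_dvd x h
  refine ⟨-(x * c), 1, ?_⟩
  rw [show syl x j = 1 + x * sylP x j from rfl, hc]; ring

theorem syl_coprime {K : Type*} [CommRing K] (x : K) {i j : ℕ} (h : i ≠ j) :
    IsCoprime (syl x i) (syl x j) := by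
  rcases lt_or_gt_of_ne h with h | h
  · exact syl_coprime_lt x h
  · exact (syl_coprime_lt x h).symm

/-- pairwise coprime non units are multiplicatively independent -/
theorem indep {K : Type*} [CommRing K] {s : Fin 4 → K}
    (hc : ∀ i j, i ≠ j → IsCoprime (s i) (s j)) (hu : ∀ i, ¬ IsUnit (s i))
    {p q : Fin 4 → ℕ} (hpq : ∀ i, p i = 0 ∨ q i = 0)
    (h : ∏ i, s i ^ p i = ∏ i, s i ^ q i) (i : Fin 4) : p i = 0 := by
  by_contra hi
  have hq : q i = 0 := (hpq i).resolve_left hi
  apply hu i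
  have h1 : s i ∣ ∏ j, s j ^ q j := by
    rw [← h]
    exact (dvd_pow_self _ hi).trans (Finset.dvd_prod_of_mem _ (Finset.mem_univ i))
  have h2 : IsCoprime (s i) (∏ j, s j ^ q j) := by
    apply IsCoprime.prod_right
    intro j _
    by_cases hj : i = j
    · subst hj; rw [hq]; simpa using isCoprime_one_right
    · exact (hc i j hj).pow_right
  exact h2.isUnit_of_dvd h1

theorem indep' {K : Type*} [CommRing K] {s : Fin 4 → K}
    (hc : ∀ i j, i ≠ j → IsCoprime (s i) (s j)) (hu : ∀ i, ¬ IsUnit (s i))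
    {p q : Fin 4 → ℕ} (hpq : ∀ i, p i = 0 ∨ q i = 0)
    (h : ∏ i, s i ^ p i = ∏ i, s i ^ q i) (hne : ∃ i, p i ≠ 0 ∨ q i ≠ 0) : False := by
  obtain ⟨i, hi⟩ := hne
  rcases hi with hi | hi
  · exact hi (indep hc hu hpq h i)
  · exact hi (indep hc hu (fun i => (hpq i).symm) h.symm i)

/-- the integer values, with `x = q ^ 2` -/
theorem sylP_pos {q : ℤ} (n : ℕ) : 0 < sylP (q ^ 2) n := by
  induction n with
  | zero => simp [sylP]
  | succ n ih =>
    have : 0 ≤ q ^ 2 * sylP (q ^ 2) n := by positivity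
    simp only [sylP]; positivity

theorem syl_int_not_unit {q : ℤ} (hq : q ≠ 0) (n : ℕ) : ¬ IsUnit (syl (q ^ 2) n) := by
  have h1 : 0 < sylP (q ^ 2) n := sylP_pos n
  have h2 : 0 < q ^ 2 := by positivity
  have h3 : 2 ≤ syl (q ^ 2) n := by
    have : 0 < q ^ 2 * sylP (q ^ 2) n := by positivity
    simp only [syl]; omega
  intro h
  rcases Int.isUnit_iff.1 h with h | h <;> omega

open Polynomial

theorem syl_coeff {k : Type*} [CommRing k] (n : ℕ) : (syl (X : k[X]) n).coeff 0 = 1 := by
  simp [syl]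

theorem sylP_ne_zero {k : Type*} [CommRing k] [IsDomain k] (n : ℕ) : sylP (X : k[X]) n ≠ 0 := by
  induction n with
  | zero => simp [sylP]
  | succ n ih =>
    have : (1 + X * sylP (X : k[X]) n) ≠ 0 := by
      intro h
      have := congrArg (fun f => coeff f 0) h
      simp at this
    exact mul_ne_zero ih this

theorem syl_poly_not_unit {k : Type*} [CommRing k] [IsDomain k] (n : ℕ) :
    ¬ IsUnit (syl (X : k[X]) n) := by
  intro h
  obtain ⟨c, _, hc⟩ := Polynomial.isUnit_iff.1 h
  have h1 : X * sylP (X : k[X]) n = C (c - 1) := by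
    rw [map_sub, hc, map_one, show syl (X : k[X]) n = 1 + X * sylP (X : k[X]) n from rfl]; ring
  have h2 : (X * sylP (X : k[X]) n).natDegree = (sylP (X : k[X]) n).natDegree + 1 :=
    natDegree_X_mul (sylP_ne_zero n)
  rw [h1, natDegree_C] at h2
  omega

end Pool.Agent.R646.B
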