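import Mathlib
import Pool.Agent.R646.B.Syl

/-!
# Bijective cocycles and central elements
-/

namespace Pool.Agent.R646.B

open Polynomial

/-- any four elements in the image of a commutative monoid are multiplicatively dependent -/
def Rk (G : Type*) [Group G] : Prop :=
  ∀ (M : Type) [CommMonoid M] (h : M →* G) (u : Fin 4 → M), ∃ p q : Fin 4 → ℕ,
    (∀ i, p i = 0 ∨ q i = 0) ∧ (∃ i, p i ≠ 0 ∨ q i ≠ 0) ∧
      h (∏ i, u i ^ p i) = h (∏ i, u i ^ q i)

theorem Rk.of_injective {G H : Type*} [Group G] [Group H] (hG : Rk G) (f : H →* G)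
    (hf : Function.Injective f) : Rk H := by
  intro M _ h u
  obtain ⟨p, q, h1, h2, h3⟩ := hG M (f.comp h) u
  exact ⟨p, q, h1, h2, hf h3⟩

/-- a group `G` acting on a `k`-module `A` with a bijective one-cocycle -/
structure Coc (k G A : Type*) [CommRing k] [Group G] [AddCommGroup A] [Module k A] where
  /-- the action -/
  lam : G →* Module.End k A
  /-- the cocycle -/
  pi : G → A
  bij : Function.Bijective pi
  coc : ∀ g h, pi (g * h) = pi g + lam g (pi h)

/-- polynomials with constant coefficient one -/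
def UM (k : Type*) [CommRing k] : Submonoid k[X] where
  carrier := {u | u.coeff 0 = 1}
  one_mem' := by simp
  mul_mem' := by
    intro a b ha hb
    change a.coeff 0 = 1 at ha
    change b.coeff 0 = 1 at hb
    change (a * b).coeff 0 = 1
    rw [mul_coeff_zero, ha, hb, one_mul]

theorem divX_mul_U {k : Type*} [CommRing k] {u v : k[X]} (hu : u.coeff 0 = 1)
    (hv : v.coeff 0 = 1) : divX (u * v) = divX u + divX v * u := by
  have hX : IsRightRegular (X : k[X]) := Polynomial.isRegular_X.right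
  apply hX
  change divX (u * v) * X = (divX u + divX v * u) * X
  have h1 := divX_mul_X_add (u * v)
  have h2 := divX_mul_X_add u
  have h3 := divX_mul_X_add v
  rw [mul_coeff_zero, hu, hv, one_mul] at h1
  rw [hu] at h2
  rw [hv] at h3
  have e1 : divX (u * v) * X = u * v - C 1 := by
    conv_rhs => rw [← h1]
    simp
  have e2 : divX u * X = u - C 1 := by
    conv_rhs => rw [← h2]
    simp
  have e3 : divX v * X = v - C 1 := by
    conv_rhs => rw [← h3]
    simp
  rw [e1, add_mul, e2, mul_right_comm, e3, C_1]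
  ring

theorem aeval_commute {k A : Type*} [CommRing k] [AddCommGroup A] [Module k A]
    {L N : Module.End k A} (h : Commute L N) (f : k[X]) : Commute L (aeval N f) := by
  induction f using Polynomial.induction_on' with
  | add p q hp hq => rw [map_add]; exact hp.add_right hq
  | monomial n a =>
    rw [aeval_monomial]
    exact (Algebra.commute_algebraMap_right a L).mul_right (h.pow_right n)

theorem aeval_comm_apply {k A : Type*} [CommRing k] [AddCommGroup A] [Module k A]
    {L N : Module.End k A} (h : Commute L N) (f : k[X]) (a : A) :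
    L (aeval N f a) = aeval N f (L a) := by
  have := (aeval_commute h f).eq
  exact congrArg (fun T : Module.End k A => T a) this

namespace Coc

variable {k G A : Type*} [CommRing k] [Group G] [AddCommGroup A] [Module k A] (C : Coc k G A)

theorem pi_one : C.pi 1 = 0 := by
  have h := C.coc 1 1
  rw [mul_one, map_one] at h
  simpa using h

/-- the inverse of the cocycle -/
noncomputable def iv (a : A) : G := Function.surjInv C.bij.2 a

theorem pi_iv (a : A) : C.pi (C.iv a) = a := Function.surjInv_eq C.bij.2 a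

theorem inj {g h : G} (e : C.pi g = C.pi h) : g = h := C.bij.1 e

theorem eq_one {g : G} (e : C.pi g = 0) : g = 1 := C.inj (by rw [e, C.pi_one])

theorem lam_inv_lam (g : G) (a : A) : C.lam g⁻¹ (C.lam g a) = a := by
  have : C.lam g⁻¹ * C.lam g = 1 := by rw [← map_mul, inv_mul_cancel, map_one]
  exact congrArg (fun T : Module.End k A => T a) this

theorem lam_inj (g : G) {a b : A} (h : C.lam g a = C.lam g b) : a = b := by
  rw [← C.lam_inv_lam g a, h, C.lam_inv_lam]

theorem lam_eq_zero (g : G) {a : A} (h : C.lam g a = 0) : a = 0 :=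
  C.lam_inj g (by rw [h, map_zero])

theorem lam_mul_apply (g h : G) (a : A) : C.lam (g * h) a = C.lam g (C.lam h a) := by
  rw [map_mul]; rfl

theorem central {z : G} (hz : ∀ g, z * g = g * z) (g : G) :
    C.lam g (C.pi z) = C.pi z + (C.lam z - 1) (C.pi g) := by
  have h1 := C.coc z g
  have h2 := C.coc g z
  rw [hz g, h2] at h1
  rw [LinearMap.sub_apply, Module.End.one_apply]
  have : C.lam g (C.pi z) = C.pi z + C.lam z (C.pi g) - C.pi g := by rw [← h1]; abel
  rw [this]; abel

theorem pi_pow (g : G) (n : ℕ) :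
    C.pi (g ^ n) = ∑ i ∈ Finset.range n, (C.lam g ^ i) (C.pi g) := by
  induction n with
  | zero => simp [C.pi_one]
  | succ n ih => rw [pow_succ, C.coc, ih, Finset.sum_range_succ, map_pow]

theorem pi_pow_of_fix {g : G} (h : C.lam g (C.pi g) = C.pi g) (n : ℕ) :
    C.pi (g ^ n) = n • C.pi g := by
  have h2 : ∀ i : ℕ, (C.lam g ^ i) (C.pi g) = C.pi g := by
    intro i
    induction i with
    | zero => rfl
    | succ i ih => rw [pow_succ, Module.End.mul_apply, h, ih]
  rw [C.pi_pow]
  simp [h2]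

theorem lam_comm {z : G} (hz : ∀ g, z * g = g * z) (g : G) :
    Commute (C.lam g) (C.lam z - 1) := by
  apply Commute.sub_right _ (Commute.one_right _)
  unfold Commute SemiconjBy
  rw [← map_mul, ← map_mul, hz g]

theorem lam_H_aux {z : G} (hz : ∀ g, z * g = g * z) {u : k[X]} (hu : u.coeff 0 = 1) {g : G}
    (hg : C.pi g = aeval (C.lam z - 1) (divX u) (C.pi z)) :
    C.lam g (C.pi z) = aeval (C.lam z - 1) u (C.pi z) := by
  rw [C.central hz, hg]
  conv_rhs => rw [← divX_mul_X_add u, hu]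
  rw [map_add, mul_comm, map_mul, aeval_X, map_one, map_one, LinearMap.add_apply,
    Module.End.mul_apply, Module.End.one_apply, add_comm]

/-- the homomorphism from polynomials with constant coefficient one -/
noncomputable def H {z : G} (hz : ∀ g, z * g = g * z) : UM k →* G where
  toFun u := C.iv (aeval (C.lam z - 1) (divX u.1) (C.pi z))
  map_one' := by
    apply C.eq_one
    rw [C.pi_iv]
    have : divX (1 : k[X]) = 0 := by rw [← C_1, divX_C]
    simp [this]
  map_mul' := by
    intro u v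
    apply C.inj
    rw [C.coc, C.pi_iv, C.pi_iv, C.pi_iv]
    rw [Submonoid.coe_mul, divX_mul_U u.2 v.2, map_add, LinearMap.add_apply,
      aeval_comm_apply (C.lam_comm hz _), C.lam_H_aux hz u.2 (C.pi_iv _), map_mul,
      Module.End.mul_apply]

theorem pi_H {z : G} (hz : ∀ g, z * g = g * z) (u : UM k) :
    C.pi (C.H hz u) = aeval (C.lam z - 1) (divX u.1) (C.pi z) := C.pi_iv _

theorem lam_H {z : G} (hz : ∀ g, z * g = g * z) (u : UM k) :
    C.lam (C.H hz u) (C.pi z) = aeval (C.lam z - 1) u.1 (C.pi z) :=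
  C.lam_H_aux hz u.2 (C.pi_H hz u)

theorem lam_H_apply {z : G} (hz : ∀ g, z * g = g * z) (u : UM k) (f : k[X]) :
    C.lam (C.H hz u) (aeval (C.lam z - 1) f (C.pi z)) =
      aeval (C.lam z - 1) u.1 (aeval (C.lam z - 1) f (C.pi z)) := by
  rw [aeval_comm_apply (C.lam_comm hz _), C.lam_H hz, ← Module.End.mul_apply,
    ← Module.End.mul_apply, ← map_mul, ← map_mul, mul_comm]

end Coc

theorem prod_aeval {k A : Type*} [CommRing k] [AddCommGroup A] [Module k A]
    {N : Module.End k A} {t : A} {v : Fin 4 → k[X]} {s : Fin 4 → k}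
    (h : ∀ i, aeval N (v i) t = s i • t) (p : Fin 4 → ℕ) :
    aeval N (∏ i, v i ^ p i) t = (∏ i, s i ^ p i) • t := by
  have h1 : ∀ i n, aeval N (v i ^ n) t = s i ^ n • t := by
    intro i n
    induction n with
    | zero => simp
    | succ n ih =>
      rw [pow_succ, map_mul, Module.End.mul_apply, h, map_smul, ih, smul_smul, pow_succ, mul_comm]
  have h2 : ∀ F : Finset (Fin 4), aeval N (∏ i ∈ F, v i ^ p i) t = (∏ i ∈ F, s i ^ p i) • t := by
    intro F
    induction F using Finset.induction_on with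
    | empty => simp
    | insert a F ha ih =>
      rw [Finset.prod_insert ha, Finset.prod_insert ha, map_mul, Module.End.mul_apply, ih,
        map_smul, h1, smul_smul, mul_comm]
  exact h2 Finset.univ

theorem peel {k A : Type*} [CommRing k] [IsDomain k] [AddCommGroup A] [Module k A]
    {N : Module.End k A} {c : A} {E : k[X]} (hE : E ≠ 0) (h : aeval N E c = 0) :
    ∃ (j : ℕ) (E' : k[X]), E'.coeff 0 ≠ 0 ∧ aeval N E' (aeval N (X ^ j : k[X]) c) = 0 := by
  obtain ⟨E', h1, h2⟩ := exists_eq_pow_rootMultiplicity_mul_and_not_dvd E hE 0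
  refine ⟨E.rootMultiplicity 0, E', ?_, ?_⟩
  · intro h0
    apply h2
    rw [C_0, sub_zero]
    exact X_dvd_iff.2 h0
  · rw [← Module.End.mul_apply, ← map_mul, mul_comm]
    rw [C_0, sub_zero] at h1
    rw [← h1]; exact h

namespace Coc

section

variable {k : Type} {G A : Type*} [CommRing k] [Group G] [AddCommGroup A] [Module k A]
  (C : Coc k G A)

/-- a nonzero polynomial kills the value at a central element -/
theorem exists_poly [IsDomain k] (hG : Rk G) {z : G} (hz : ∀ g, z * g = g * z) :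
    ∃ E : k[X], E ≠ 0 ∧ aeval (C.lam z - 1) E (C.pi z) = 0 := by
  obtain ⟨p, q, h1, h2, h3⟩ := hG (UM k) (C.H hz) (fun i => ⟨syl X i, syl_coeff i⟩)
  set U : UM k := ∏ i : Fin 4, (⟨syl X (i : ℕ), syl_coeff i⟩ : UM k) ^ p i with hU
  set W : UM k := ∏ i : Fin 4, (⟨syl X (i : ℕ), syl_coeff i⟩ : UM k) ^ q i with hW
  refine ⟨divX U.1 - divX W.1, ?_, ?_⟩
  · intro h
    have e1 : divX U.1 = divX W.1 := sub_eq_zero.1 h
    have e2 : U.1 = W.1 := by
      rw [← divX_mul_X_add U.1, ← divX_mul_X_add W.1, e1, U.2, W.2]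
    have e3 : ∏ i : Fin 4, (syl (X : k[X]) (i : ℕ)) ^ p i =
        ∏ i : Fin 4, (syl (X : k[X]) (i : ℕ)) ^ q i := by
      simpa [hU, hW] using e2
    exact indep' (s := fun i : Fin 4 => syl (X : k[X]) (i : ℕ))
      (fun i j hij => syl_coprime X (fun h => hij (Fin.ext h)))
      (fun i => syl_poly_not_unit i) h1 e3 h2
  · rw [map_sub, LinearMap.sub_apply, ← C.pi_H hz, ← C.pi_H hz, h3, sub_self]

end

/-- no elementary abelian additive group -/
theorem no_char_p {k : Type} {G A : Type*} [Field k] [Group G] [AddCommGroup A] [Module k A]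
    (C : Coc k G A) (p : ℕ) [hp : Fact p.Prime] [CharP k p] (hG : Rk G)
    (tf : ∀ (g : G) (n : ℕ), n ≠ 0 → g ^ n = 1 → g = 1) {z : G} (hz : ∀ g, z * g = g * z) :
    z = 1 := by
  obtain ⟨E, hE, h0⟩ := C.exists_poly hG hz
  obtain ⟨j, E', h1, h2⟩ := peel hE h0
  set N := C.lam z - 1 with hN
  have h3 : aeval N (X ^ j : k[X]) (C.pi z) = 0 := by
    let u : UM k := ⟨Polynomial.C (E'.coeff 0)⁻¹ * E', by
      change (Polynomial.C (E'.coeff 0)⁻¹ * E').coeff 0 = 1
      rw [coeff_C_mul, inv_mul_cancel₀ h1]⟩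
    apply C.lam_eq_zero (C.H hz u)
    rw [C.lam_H_apply hz]
    change aeval N (Polynomial.C (E'.coeff 0)⁻¹ * E') _ = 0
    rw [map_mul, Module.End.mul_apply, h2, map_zero]
  have hj : j < p ^ j := Nat.lt_pow_self hp.out.one_lt
  have h4 : (∑ i ∈ Finset.range (p ^ j), (1 + X : k[X]) ^ i) = X ^ (p ^ j - 1) := by
    have hX : IsRightRegular (X : k[X]) := Polynomial.isRegular_X.right
    apply hX
    change (∑ i ∈ Finset.range (p ^ j), (1 + X : k[X]) ^ i) * X = X ^ (p ^ j - 1) * X
    have e := geom_sum_mul (1 + X : k[X]) (p ^ j)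
    rw [add_sub_cancel_left, add_pow_char_pow, one_pow, add_sub_cancel_left] at e
    rw [e, ← pow_succ, Nat.sub_add_cancel (by omega)]
  have h5 : C.pi (z ^ (p ^ j)) = 0 := by
    rw [C.pi_pow]
    have e1 : (∑ i ∈ Finset.range (p ^ j), (C.lam z ^ i) (C.pi z)) =
        aeval N (∑ i ∈ Finset.range (p ^ j), (1 + X : k[X]) ^ i) (C.pi z) := by
      rw [map_sum, LinearMap.sum_apply]
      refine Finset.sum_congr rfl (fun i _ => ?_)
      rw [map_pow, map_add, map_one, aeval_X, hN, add_sub_cancel]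
    rw [e1, h4]
    have e2 : (X ^ (p ^ j - 1) : k[X]) = X ^ (p ^ j - 1 - j) * X ^ j := by
      rw [← pow_add]; congr 1; omega
    rw [e2, map_mul, Module.End.mul_apply, h3, map_zero]
  exact tf z (p ^ j) (pow_pos hp.out.pos _).ne' (C.eq_one h5)

variable {G A : Type*} [Group G] [AddCommGroup A] (C : Coc ℤ G A)

/-- central elements act nilpotently on their own value -/
theorem nil (hA : ∀ (n : ℤ) (a : A), n • a = 0 → n = 0 ∨ a = 0) (hG : Rk G) {z : G}
    (hz : ∀ g, z * g = g * z) : ∃ j : ℕ, ((C.lam z - 1) ^ j) (C.pi z) = 0 := by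
  obtain ⟨E, hE, h0⟩ := C.exists_poly hG hz
  obtain ⟨j, E', h1, h2⟩ := peel hE h0
  refine ⟨j, ?_⟩
  by_contra ht
  set N := C.lam z - 1 with hN
  set t : A := aeval N (X ^ j : ℤ[X]) (C.pi z) with htdef
  have ht0 : t ≠ 0 := by
    intro h; apply ht
    rw [htdef, map_pow, aeval_X] at h
    exact h
  set q : ℤ := E'.coeff 0 with hq
  have hS : aeval N (divX E') (N t) = -(q • t) := by
    have e := h2
    rw [← divX_mul_X_add E', map_add, LinearMap.add_apply, map_mul, Module.End.mul_apply,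
      aeval_X, aeval_C] at e
    rw [eq_neg_iff_add_eq_zero]
    simpa using e
  let w : Fin 4 → ℤ[X] := fun i => 1 - Polynomial.C (q * sylP (q ^ 2) i) * (divX E' * X)
  have hw : ∀ i, (w i).coeff 0 = 1 := by
    intro i; simp [w, mul_coeff_zero]
  have hwt : ∀ i, aeval N (w i) t = syl (q ^ 2) (i : ℕ) • t := by
    intro i
    simp only [w]
    rw [map_sub, map_one, LinearMap.sub_apply, map_mul (aeval N), Module.End.mul_apply,
      map_mul (aeval N), Module.End.mul_apply, aeval_X, hS, aeval_C]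
    rw [Module.End.one_apply, map_neg, sub_neg_eq_add]
    change t + (q * sylP (q ^ 2) (i : ℕ)) • (q • t) = (1 + q ^ 2 * sylP (q ^ 2) (i : ℕ)) • t
    rw [smul_smul, add_smul, one_smul]
    congr 2; ring
  obtain ⟨p, r, g1, g2, g3⟩ := hG (UM ℤ) (C.H hz) (fun i => ⟨w i, hw i⟩)
  have e1 : ∀ p : Fin 4 → ℕ, C.lam (C.H hz (∏ i, (⟨w i, hw i⟩ : UM ℤ) ^ p i)) t =
      (∏ i : Fin 4, syl (q ^ 2) (i : ℕ) ^ p i) • t := by
    intro p
    rw [htdef, C.lam_H_apply hz, ← htdef]
    have : ((∏ i, (⟨w i, hw i⟩ : UM ℤ) ^ p i : UM ℤ) : ℤ[X]) = ∏ i, w i ^ p i := by simp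
    rw [this]
    exact prod_aeval hwt p
  have e2 : (∏ i : Fin 4, syl (q ^ 2) (i : ℕ) ^ p i) • t =
      (∏ i : Fin 4, syl (q ^ 2) (i : ℕ) ^ r i) • t := by rw [← e1, ← e1, g3]
  rw [← sub_eq_zero, ← sub_smul] at e2
  rcases hA _ _ e2 with e3 | e3
  · exact indep' (s := fun i : Fin 4 => syl (q ^ 2) (i : ℕ))
      (fun i j hij => syl_coprime _ (fun h => hij (Fin.ext h)))
      (fun i => syl_int_not_unit h1 i) g1 (sub_eq_zero.1 e3) g2
  · exact ht0 e3

end Coc

end Pool.Agent.R646.B
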