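import Mathlib
import Pool.Agent.R646.B.Coc

/-!
# Torsion-freeness of the additive group and divisible central elements
-/

namespace Pool.Agent.R646.B

/-- torsion-free groups -/
def TF (G : Type*) [Group G] : Prop := ∀ (g : G) (n : ℕ), n ≠ 0 → g ^ n = 1 → g = 1

/-- every nontrivial subgroup has a nontrivial central element -/
def HC (G : Type*) [Group G] : Prop :=
  ∀ S : Subgroup G, S ≠ ⊥ → ∃ z ∈ S, z ≠ 1 ∧ ∀ g ∈ S, z * g = g * z

namespace Coc

variable {G A : Type*} [Group G] [AddCommGroup A] (C : Coc ℤ G A)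

theorem pi_inv (g : G) : C.pi g⁻¹ = -(C.lam g⁻¹ (C.pi g)) := by
  have h := C.coc g⁻¹ g
  rw [inv_mul_cancel, C.pi_one] at h
  exact eq_neg_of_add_eq_zero_left h.symm

/-- the elements with value of order dividing `p` -/
def tsub (p : ℕ) : Subgroup G where
  carrier := {g | p • C.pi g = 0}
  one_mem' := by
    change p • C.pi 1 = 0
    rw [C.pi_one, smul_zero]
  mul_mem' := by
    intro a b ha hb
    change p • C.pi a = 0 at ha
    change p • C.pi b = 0 at hb
    change p • C.pi (a * b) = 0
    rw [C.coc, smul_add, ha, zero_add, ← map_nsmul, hb, map_zero]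
  inv_mem' := by
    intro a ha
    change p • C.pi a = 0 at ha
    change p • C.pi a⁻¹ = 0
    rw [C.pi_inv, smul_neg, ← map_nsmul, ha, map_zero, neg_zero]

/-- the additive elements of order dividing `p` -/
def tadd (A : Type*) [AddCommGroup A] (p : ℕ) : AddSubgroup A where
  carrier := {a | p • a = 0}
  zero_mem' := smul_zero _
  add_mem' := by
    intro a b ha hb
    change p • a = 0 at ha
    change p • b = 0 at hb
    change p • (a + b) = 0
    rw [smul_add, ha, hb, add_zero]
  neg_mem' := by
    intro a ha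
    change p • a = 0 at ha
    change p • (-a) = 0
    rw [smul_neg, ha, neg_zero]

noncomputable instance tmod (A : Type*) [AddCommGroup A] (p : ℕ) : Module (ZMod p) (tadd A p) :=
  AddCommGroup.zmodModule (fun x => Subtype.ext (x.2 : p • (x : A) = 0))

theorem tmap (p : ℕ) (g : G) (x : A) (hx : p • x = 0) : p • (C.lam g x) = 0 := by
  rw [← map_nsmul, hx, map_zero]

/-- the restricted action, additive version -/
def tl0 (p : ℕ) (g : G) : tadd A p →+ tadd A p where
  toFun x := ⟨C.lam g x, C.tmap p g x x.2⟩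
  map_zero' := Subtype.ext (by simp)
  map_add' x y := Subtype.ext (by simp)

/-- the restricted action -/
noncomputable def tlam (p : ℕ) : (C.tsub p) →* Module.End (ZMod p) (tadd A p) where
  toFun g := AddMonoidHom.toZModLinearMap p (C.tl0 p (g : G))
  map_one' := by
    apply LinearMap.ext
    intro x
    apply Subtype.ext
    rw [Module.End.one_apply]
    change C.lam (1 : G) x = x
    rw [map_one]; rfl
  map_mul' g h := by
    apply LinearMap.ext
    intro x
    apply Subtype.ext
    rw [Module.End.mul_apply]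
    change C.lam (g * h : G) x = C.lam (g : G) (C.lam (h : G) x)
    rw [map_mul]; rfl

/-- the restricted cocycle -/
noncomputable def tcoc (p : ℕ) : Coc (ZMod p) (C.tsub p) (tadd A p) where
  lam := C.tlam p
  pi g := ⟨C.pi g, g.2⟩
  bij := by
    constructor
    · intro g h e
      exact Subtype.ext (C.inj (congrArg Subtype.val e))
    · intro x
      refine ⟨⟨C.iv x, ?_⟩, ?_⟩
      · change p • C.pi (C.iv x) = 0
        rw [C.pi_iv]; exact x.2
      · exact Subtype.ext (C.pi_iv x)
  coc g h := by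
    apply Subtype.ext
    change C.pi (g * h : G) = C.pi g + C.lam (g : G) (C.pi h)
    exact C.coc g h

include C in
theorem no_tors (hG : Rk G) (tf : TF G) (hc : HC G) (p : ℕ) (hp : p.Prime) (a : A)
    (ha : p • a = 0) : a = 0 := by
  by_contra ha0
  have : Fact p.Prime := ⟨hp⟩
  have hne : C.tsub p ≠ ⊥ := by
    intro h
    have h1 : C.iv a ∈ C.tsub p := by
      change p • C.pi (C.iv a) = 0
      rw [C.pi_iv]; exact ha
    rw [h, Subgroup.mem_bot] at h1
    apply ha0
    rw [← C.pi_iv a, h1, C.pi_one]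
  obtain ⟨z, hz, hz1, hzc⟩ := hc _ hne
  have := (C.tcoc p).no_char_p p
    (hG.of_injective (C.tsub p).subtype (C.tsub p).subtype_injective)
    (fun g n hn e => Subtype.ext (tf g n hn (congrArg Subtype.val e)))
    (z := ⟨z, hz⟩) (fun g => Subtype.ext (hzc g g.2))
  exact hz1 (congrArg Subtype.val this)

include C in
theorem tors_free (hG : Rk G) (tf : TF G) (hc : HC G) (n : ℤ) (a : A) (h : n • a = 0) :
    n = 0 ∨ a = 0 := by
  have key : ∀ n : ℕ, n ≠ 0 → ∀ a : A, n • a = 0 → a = 0 := by
    intro n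
    induction n using Nat.strong_induction_on with
    | _ n ih =>
      intro hn a ha
      by_cases h1 : n = 1
      · subst h1; simpa using ha
      · obtain ⟨p, hp, m, rfl⟩ := Nat.exists_prime_and_dvd h1
        have hm : m ≠ 0 := by rintro rfl; simp at hn
        have e : p • (m • a) = 0 := by rw [smul_smul]; exact ha
        have e2 := C.no_tors hG tf hc p hp _ e
        exact ih m (by have := hp.two_le; nlinarith [Nat.pos_of_ne_zero hm]) hm a e2
  by_cases hn : n = 0
  · exact Or.inl hn
  · right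
    apply key n.natAbs (by omega) a
    rcases Int.natAbs_eq n with e | e
    · rw [e] at h; rw [natCast_zsmul] at h; exact h
    · rw [e, neg_smul, natCast_zsmul, neg_eq_zero] at h; exact h

/-- central elements which are divisible by many primes act trivially on their own value -/
theorem div_central (hA : ∀ (n : ℤ) (a : A), n • a = 0 → n = 0 ∨ a = 0) (hG : Rk G) {z : G}
    (hz : ∀ g, z * g = g * z) (Q : Set ℕ)
    (hQ : ∀ p ∈ Q, p ≠ 0 ∧ ∃ w : G, (∀ g, w * g = g * w) ∧ w ^ p = z)
    (hdiv : ∀ g : G, (∀ p ∈ Q, ∃ h : G, h ^ (p ^ 2) = g) → g = 1) :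
    (C.lam z - 1) (C.pi z) = 0 := by
  classical
  by_contra hne
  have hA' : ∀ (n : ℕ) (a b : A), n ≠ 0 → n • a = n • b → a = b := by
    intro n a b hn h
    have : (n : ℤ) • (a - b) = 0 := by
      rw [natCast_zsmul, smul_sub, h, sub_self]
    rcases hA _ _ this with h1 | h1
    · exact absurd (by exact_mod_cast h1) hn
    · exact sub_eq_zero.1 h1
  have hk := C.nil hA hG hz
  set N := C.lam z - 1 with hN
  set k := Nat.find hk with hkdef
  have hk1 : (N ^ k) (C.pi z) = 0 := Nat.find_spec hk
  have hkmin : ∀ m, m < k → (N ^ m) (C.pi z) ≠ 0 := fun m hm => Nat.find_min hk hm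
  have hk2 : 2 ≤ k := by
    by_contra h
    rcases (by omega : k = 0 ∨ k = 1) with h0 | h0
    · rw [h0] at hk1
      apply hne
      have : C.pi z = 0 := hk1
      rw [this, map_zero]
    · rw [h0, pow_one] at hk1; exact hne hk1
  have hc' : (N ^ (k - 1)) (C.pi z) ≠ 0 := hkmin _ (by omega)
  apply hc'
  have hg := hdiv (C.iv ((N ^ (k - 1)) (C.pi z))) ?_
  · rw [← C.pi_iv ((N ^ (k - 1)) (C.pi z)), hg, C.pi_one]
  intro p hp
  obtain ⟨hp0, w, hwc, hwz⟩ := hQ p hp
  have hm := C.nil hA hG hwc
  set n := C.lam w - 1 with hn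
  set m := Nat.find hm with hmdef
  have hm1 : (n ^ m) (C.pi w) = 0 := Nat.find_spec hm
  have hmmin : ∀ i, i < m → (n ^ i) (C.pi w) ≠ 0 := fun i hi => Nat.find_min hm hi
  set T : Module.End ℤ A := ∑ i ∈ Finset.range p, C.lam w ^ i with hT
  have hcT : C.pi z = T (C.pi w) := by
    rw [← hwz, C.pi_pow, hT, LinearMap.sum_apply]
  have hNT : N = T * n := by
    rw [hN, ← hwz, map_pow, hT, hn, geom_sum_mul]
  have hcom : Commute T n := by
    have h1 : Commute (C.lam w) n := by
      rw [hn]; exact (Commute.refl _).sub_right (Commute.one_right _)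
    rw [hT]
    exact Commute.sum_left _ _ _ (fun i _ => h1.pow_left i)
  have hNi : ∀ i : ℕ, (N ^ i) (C.pi z) = (T ^ (i + 1)) ((n ^ i) (C.pi w)) := by
    intro i
    rw [hNT, hcom.mul_pow, hcT, ← Module.End.mul_apply, ← Module.End.mul_apply, pow_succ,
      mul_assoc, mul_assoc, (hcom.pow_right i).eq]
  have hm0 : m ≠ 0 := by
    intro h
    rw [h] at hm1
    have h1 : C.pi w = 0 := hm1
    apply hne
    rw [hcT, h1, map_zero, map_zero]
  set v : A := (n ^ (m - 1)) (C.pi w) with hv
  have hv0 : v ≠ 0 := hmmin _ (by omega)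
  have hnv : n v = 0 := by
    have e : n ^ m = n * n ^ (m - 1) := by rw [← pow_succ']; congr 1; omega
    rw [e] at hm1
    exact hm1
  have hwv : C.lam w v = v := by
    have : C.lam w v - v = 0 := hnv
    exact sub_eq_zero.1 this
  have hTv : T v = p • v := by
    have h2 : ∀ i : ℕ, (C.lam w ^ i) v = v := by
      intro i
      induction i with
      | zero => rfl
      | succ i ih => rw [pow_succ, Module.End.mul_apply, hwv, ih]
    rw [hT, LinearMap.sum_apply]
    simp [h2]
  have hTjv : ∀ j : ℕ, (T ^ j) v = (p ^ j) • v := by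
    intro j
    induction j with
    | zero => simp
    | succ j ih =>
      rw [pow_succ, Module.End.mul_apply, hTv, map_nsmul, ih, smul_smul, pow_succ, mul_comm]
  have hpj : ∀ j : ℕ, p ^ j ≠ 0 := fun j => pow_ne_zero j hp0
  have hmk : m = k := by
    apply le_antisymm
    · by_contra h
      have h1 : k ≤ m - 1 := by omega
      have h2 : (N ^ (m - 1)) (C.pi z) = 0 := by
        have e : N ^ (m - 1) = N ^ (m - 1 - k) * N ^ k := by rw [← pow_add]; congr 1; omega
        rw [e, Module.End.mul_apply, hk1, map_zero]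
      rw [hNi, ← hv, hTjv] at h2
      exact hv0 (hA' _ _ _ (hpj _) (by rw [h2, smul_zero]))
    · by_contra h
      have h2 := hkmin m (by omega)
      apply h2
      rw [hNi, hm1, map_zero]
  have hc2 : (N ^ (k - 1)) (C.pi z) = (p ^ k) • v := by
    rw [hNi, ← hmk, ← hv, hTjv]
    congr 2; omega
  have hNv : N v = 0 := by rw [hNT, Module.End.mul_apply, hnv, map_zero]
  have hfix : C.lam (C.iv v) (C.pi (C.iv v)) = C.pi (C.iv v) := by
    rw [C.pi_iv]
    apply hA' _ _ _ (hpj k)
    rw [← map_nsmul, ← hc2]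
    have hcm : Commute (C.lam (C.iv v)) (N ^ (k - 1)) := (C.lam_comm hz _).pow_right _
    have e1 : C.lam (C.iv v) ((N ^ (k - 1)) (C.pi z)) =
        (N ^ (k - 1)) (C.lam (C.iv v) (C.pi z)) :=
      congrArg (fun T : Module.End ℤ A => T (C.pi z)) hcm.eq
    rw [e1, C.central hz, C.pi_iv, ← hN, hNv, add_zero]
  refine ⟨(C.iv v) ^ (p ^ (k - 2)), ?_⟩
  apply C.inj
  rw [← pow_mul, ← pow_add, C.pi_pow_of_fix hfix, C.pi_iv, C.pi_iv, hc2]
  congr 2; omega

end Coc

end Pool.Agent.R646.B
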