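import Mathlib
import Pool.Agent.R646.B.Gen

/-!
# Local conditions on rationals, linear relations, and the rational Heisenberg group
-/

namespace Pool.Agent.R646.B

/-- `t` is integral at `p` -/
def Loc (p : ℕ) (t : ℚ) : Prop := ∃ a b : ℤ, ¬ (p : ℤ) ∣ b ∧ t * b = a

namespace Loc

variable {p : ℕ} (hp : p.Prime) {s t : ℚ}

include hp in
theorem int (n : ℤ) : Loc p n := by
  refine ⟨n, 1, ?_, by simp⟩
  intro h
  have := Int.le_of_dvd (by norm_num) h
  have := hp.two_le
  omega

include hp in
theorem add (hs : Loc p s) (ht : Loc p t) : Loc p (s + t) := by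
  obtain ⟨a, b, hb, h⟩ := hs
  obtain ⟨c, d, hd, h'⟩ := ht
  refine ⟨a * d + c * b, b * d, ?_, ?_⟩
  · intro hh
    rcases (Nat.prime_iff_prime_int.1 hp).dvd_or_dvd hh with h1 | h1
    · exact hb h1
    · exact hd h1
  · push_cast
    rw [← h, ← h']; ring

include hp in
theorem mul (hs : Loc p s) (ht : Loc p t) : Loc p (s * t) := by
  obtain ⟨a, b, hb, h⟩ := hs
  obtain ⟨c, d, hd, h'⟩ := ht
  refine ⟨a * c, b * d, ?_, ?_⟩
  · intro hh
    rcases (Nat.prime_iff_prime_int.1 hp).dvd_or_dvd hh with h1 | h1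
    · exact hb h1
    · exact hd h1
  · push_cast
    rw [← h, ← h']; ring

theorem neg (hs : Loc p s) : Loc p (-s) := by
  obtain ⟨a, b, hb, h⟩ := hs
  exact ⟨-a, b, hb, by push_cast; rw [← h]; ring⟩

include hp in
theorem sub (hs : Loc p s) (ht : Loc p t) : Loc p (s - t) := by
  rw [sub_eq_add_neg]; exact hs.add hp ht.neg

include hp in
theorem zero : Loc p 0 := by simpa using int hp 0

include hp in
theorem one : Loc p 1 := by simpa using int hp 1

/-- division by an integer prime to `p` -/
theorem inv {q : ℤ} (hq : ¬ (p : ℤ) ∣ q) : Loc p (1 / (q : ℚ)) := by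
  refine ⟨1, q, hq, ?_⟩
  have : (q : ℚ) ≠ 0 := by
    intro h; apply hq; rw [(by exact_mod_cast h : q = 0)]; exact dvd_zero _
  field_simp
  simp

end Loc

/-- a rational is integral at all large primes -/
theorem loc_large (t : ℚ) {p : ℕ} (h : t.den < p) : Loc p t := by
  refine ⟨t.num, t.den, ?_, ?_⟩
  · intro hh
    have h1 := Int.le_of_dvd (by exact_mod_cast t.den_pos) hh
    omega
  · push_cast; exact Rat.mul_den_eq_num t

/-- a nonzero rational is not divisible by large primes -/
theorem not_loc_div {t : ℚ} (ht : t ≠ 0) : ∃ B : ℕ, ∀ p : ℕ, p.Prime → B < p → ¬ Loc p (t / p) := by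
  refine ⟨t.num.natAbs, ?_⟩
  rintro p hp hB ⟨a, b, hb, h⟩
  have hp0 : (p : ℚ) ≠ 0 := by exact_mod_cast hp.ne_zero
  have h1 : (t.num * b : ℤ) = p * a * t.den := by
    have e : (t.num : ℚ) * b = p * a * t.den := by
      rw [← h, ← Rat.mul_den_eq_num t]
      field_simp
    exact_mod_cast e
  have h2 : (p : ℤ) ∣ t.num * b := ⟨a * t.den, by rw [h1]; ring⟩
  rcases (Nat.prime_iff_prime_int.1 hp).dvd_or_dvd h2 with h3 | h3
  · have h4 : p ∣ t.num.natAbs := Int.natCast_dvd.1 h3
    have h5 : t.num.natAbs ≠ 0 := by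
      rw [Int.natAbs_ne_zero]; exact Rat.num_ne_zero.2 ht
    have := Nat.le_of_dvd (Nat.pos_of_ne_zero h5) h4
    omega
  · exact hb h3

/-- four vectors in a space of dimension at most three -/
theorem lin_rel {W : Type*} [AddCommGroup W] [Module ℚ W] [Module.Finite ℚ W]
    (hW : Module.finrank ℚ W < 4) (v : Fin 4 → W) :
    ∃ p q : Fin 4 → ℕ, (∀ i, p i = 0 ∨ q i = 0) ∧ (∃ i, p i ≠ 0 ∨ q i ≠ 0) ∧
      ∑ i, p i • v i = ∑ i, q i • v i := by
  have h : ¬ LinearIndependent ℚ v := by
    intro h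
    have := h.fintype_card_le_finrank
    simp at this
    omega
  obtain ⟨g, hg, i0, hi0⟩ := Fintype.not_linearIndependent_iff.1 h
  set D : ℕ := ∏ j, (g j).den with hD
  have hD0 : D ≠ 0 := Finset.prod_ne_zero_iff.2 (fun j _ => (g j).den_nz)
  have hdiv : ∀ j, (g j).den ∣ D := fun j => Finset.dvd_prod_of_mem _ (Finset.mem_univ j)
  set a : Fin 4 → ℤ := fun j => (g j).num * (D / (g j).den : ℕ) with ha
  have hga : ∀ j, (a j : ℚ) = D * g j := by
    intro j
    obtain ⟨c, hc⟩ := hdiv j
    have h1 : D / (g j).den = c := by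
      rw [hc]; exact Nat.mul_div_cancel_left _ (g j).den_pos
    have h3 : a j = (g j).num * (c : ℤ) := by rw [ha]; simp only; rw [h1]
    rw [h3]
    push_cast
    rw [hc]
    have h2 : (g j) * (g j).den = (g j).num := Rat.mul_den_eq_num _
    rw [← h2]; push_cast; ring
  have hsum : ∑ j, (a j) • v j = 0 := by
    have : ∑ j, (a j) • v j = (D : ℚ) • ∑ j, g j • v j := by
      rw [Finset.smul_sum]
      refine Finset.sum_congr rfl (fun j _ => ?_)
      rw [smul_smul, ← hga j, Int.cast_smul_eq_zsmul]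
    rw [this, hg, smul_zero]
  refine ⟨fun j => (a j).toNat, fun j => (-a j).toNat, ?_, ⟨i0, ?_⟩, ?_⟩
  · intro j
    simp only
    omega
  · have : a i0 ≠ 0 := by
      intro h0
      have := hga i0
      rw [h0] at this
      simp at this
      rcases this with h1 | h1
      · exact hD0 h1
      · exact hi0 h1
    simp only
    omega
  · rw [← sub_eq_zero, ← Finset.sum_sub_distrib, ← hsum]
    refine Finset.sum_congr rfl (fun j _ => ?_)
    rw [← natCast_zsmul, ← natCast_zsmul, ← sub_smul]
    congr 1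
    simp only
    omega

/-- the rational Heisenberg group in symmetric coordinates -/
@[ext] structure H3 where
  /-- first coordinate -/
  x : ℚ
  /-- second coordinate -/
  y : ℚ
  /-- central coordinate -/
  t : ℚ

namespace H3

instance : Mul H3 := ⟨fun a b => ⟨a.x + b.x, a.y + b.y, a.t + b.t + (a.x * b.y - a.y * b.x)⟩⟩
instance : One H3 := ⟨⟨0, 0, 0⟩⟩
instance : Inv H3 := ⟨fun a => ⟨-a.x, -a.y, -a.t⟩⟩

@[simp] theorem mul_x (a b : H3) : (a * b).x = a.x + b.x := rfl
@[simp] theorem mul_y (a b : H3) : (a * b).y = a.y + b.y := rfl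
@[simp] theorem mul_t (a b : H3) : (a * b).t = a.t + b.t + (a.x * b.y - a.y * b.x) := rfl
@[simp] theorem one_x : (1 : H3).x = 0 := rfl
@[simp] theorem one_y : (1 : H3).y = 0 := rfl
@[simp] theorem one_t : (1 : H3).t = 0 := rfl
@[simp] theorem inv_x (a : H3) : (a⁻¹).x = -a.x := rfl
@[simp] theorem inv_y (a : H3) : (a⁻¹).y = -a.y := rfl
@[simp] theorem inv_t (a : H3) : (a⁻¹).t = -a.t := rfl

instance : Group H3 := Group.ofLeftAxioms
  (by intro a b c; ext <;> simp <;> ring)
  (by intro a; ext <;> simp)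
  (by intro a; ext <;> simp; ring)

theorem pow_x (a : H3) (n : ℕ) : (a ^ n).x = n * a.x := by
  induction n with
  | zero => simp
  | succ n ih => rw [pow_succ, mul_x, ih]; push_cast; ring

theorem pow_y (a : H3) (n : ℕ) : (a ^ n).y = n * a.y := by
  induction n with
  | zero => simp
  | succ n ih => rw [pow_succ, mul_y, ih]; push_cast; ring

theorem pow_t (a : H3) (n : ℕ) : (a ^ n).t = n * a.t := by
  induction n with
  | zero => simp
  | succ n ih => rw [pow_succ, mul_t, ih, pow_x, pow_y]; push_cast; ring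

/-- the coordinate vector -/
def vec (a : H3) : Fin 3 → ℚ := ![a.x, a.y, a.t]

theorem vec_inj {a b : H3} (h : vec a = vec b) : a = b := by
  ext
  · exact congrFun h 0
  · exact congrFun h 1
  · exact congrFun h 2

theorem vec_mul_comm {a b : H3} (h : a * b = b * a) : vec (a * b) = vec a + vec b := by
  have e := congrArg H3.t h
  simp only [mul_t] at e
  have e2 : a.x * b.y - a.y * b.x = 0 := by linarith
  funext i
  fin_cases i
  · simp [vec]
  · simp [vec]
  · simp [vec, e2]

theorem rk : Rk H3 := by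
  intro M _ h u
  have hadd : ∀ m n : M, vec (h (m * n)) = vec (h m) + vec (h n) := by
    intro m n
    rw [map_mul]
    apply vec_mul_comm
    rw [← map_mul, ← map_mul, mul_comm]
  have hone : vec (h 1) = 0 := by
    rw [map_one]
    funext i
    fin_cases i <;> simp [vec]
  have hpow : ∀ (m : M) (n : ℕ), vec (h (m ^ n)) = n • vec (h m) := by
    intro m n
    induction n with
    | zero => rw [pow_zero, hone, zero_smul]
    | succ n ih => rw [pow_succ, hadd, ih, succ_nsmul]
  have hprod : ∀ (p : Fin 4 → ℕ), vec (h (∏ i, u i ^ p i)) = ∑ i, p i • vec (h (u i)) := by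
    intro p
    rw [Fin.prod_univ_four, Fin.sum_univ_four, hadd, hadd, hadd, hpow, hpow, hpow, hpow]
  obtain ⟨p, q, h1, h2, h3⟩ := lin_rel (W := Fin 3 → ℚ) (by simp) (fun i => vec (h (u i)))
  refine ⟨p, q, h1, h2, ?_⟩
  apply vec_inj
  rw [hprod, hprod, h3]

theorem tf : TF H3 := by
  intro g n hn h
  have hn' : (n : ℚ) ≠ 0 := by exact_mod_cast hn
  ext
  · have := congrArg H3.x h
    rw [pow_x] at this
    simpa [hn] using this
  · have := congrArg H3.y h
    rw [pow_y] at this
    simpa [hn] using this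
  · have := congrArg H3.t h
    rw [pow_t] at this
    simpa [hn] using this

end H3

end Pool.Agent.R646.B
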