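import Mathlib
import Pool.Agent.R646.B.Grp1

/-!
# The group
-/

namespace Pool.Agent.R646.B

/-- local condition at the prime `p` on the first two coordinates -/
def LV (p : ℕ) (x y : ℚ) : Prop :=
  (p % 8 = 1 → Loc p (p * x) ∧ Loc p y) ∧ (p % 8 = 3 → Loc p x ∧ Loc p (p * y)) ∧
  (p % 8 = 5 → Loc p (p * x) ∧ Loc p (x - y)) ∧
  (p % 8 ≠ 1 → p % 8 ≠ 3 → p % 8 ≠ 5 → Loc p x ∧ Loc p y)

/-- local condition at the prime `p` on the central coordinate -/
def LL (p : ℕ) (t : ℚ) : Prop :=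
  ((p % 8 = 1 ∨ p % 8 = 3 ∨ p % 8 = 5) → Loc p (p * t)) ∧
  (p % 8 ≠ 1 → p % 8 ≠ 3 → p % 8 ≠ 5 → Loc p t)

section loc

variable {p : ℕ} (hp : p.Prime)

include hp in
theorem Loc.nat_mul {t : ℚ} (h : Loc p t) : Loc p (p * t) := by
  have := (Loc.int hp p).mul hp h
  simpa using this

include hp in
theorem LV.of_loc {x y : ℚ} (hx : Loc p x) (hy : Loc p y) : LV p x y :=
  ⟨fun _ => ⟨hx.nat_mul hp, hy⟩, fun _ => ⟨hx, hy.nat_mul hp⟩,
    fun _ => ⟨hx.nat_mul hp, hx.sub hp hy⟩, fun _ _ _ => ⟨hx, hy⟩⟩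

include hp in
theorem LL.of_loc {t : ℚ} (h : Loc p t) : LL p t :=
  ⟨fun _ => h.nat_mul hp, fun _ _ _ => h⟩

include hp in
theorem LV.add {x y x' y' : ℚ} (h : LV p x y) (h' : LV p x' y') : LV p (x + x') (y + y') := by
  refine ⟨fun c => ?_, fun c => ?_, fun c => ?_, fun c d e => ?_⟩
  · have a := h.1 c; have b := h'.1 c
    exact ⟨by rw [mul_add]; exact a.1.add hp b.1, a.2.add hp b.2⟩
  · have a := h.2.1 c; have b := h'.2.1 c
    exact ⟨a.1.add hp b.1, by rw [mul_add]; exact a.2.add hp b.2⟩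
  · have a := h.2.2.1 c; have b := h'.2.2.1 c
    exact ⟨by rw [mul_add]; exact a.1.add hp b.1, by
      rw [show x + x' - (y + y') = (x - y) + (x' - y') by ring]; exact a.2.add hp b.2⟩
  · have a := h.2.2.2 c d e; have b := h'.2.2.2 c d e
    exact ⟨a.1.add hp b.1, a.2.add hp b.2⟩

theorem LV.neg {x y : ℚ} (h : LV p x y) : LV p (-x) (-y) := by
  refine ⟨fun c => ?_, fun c => ?_, fun c => ?_, fun c d e => ?_⟩
  · have a := h.1 c
    exact ⟨by rw [mul_neg]; exact a.1.neg, a.2.neg⟩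
  · have a := h.2.1 c
    exact ⟨a.1.neg, by rw [mul_neg]; exact a.2.neg⟩
  · have a := h.2.2.1 c
    exact ⟨by rw [mul_neg]; exact a.1.neg, by
      rw [show -x - -y = -(x - y) by ring]; exact a.2.neg⟩
  · have a := h.2.2.2 c d e
    exact ⟨a.1.neg, a.2.neg⟩

include hp in
theorem LL.add {t t' : ℚ} (h : LL p t) (h' : LL p t') : LL p (t + t') :=
  ⟨fun c => by rw [mul_add]; exact (h.1 c).add hp (h'.1 c),
    fun c d e => (h.2 c d e).add hp (h'.2 c d e)⟩

theorem LL.neg {t : ℚ} (h : LL p t) : LL p (-t) :=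
  ⟨fun c => by rw [mul_neg]; exact (h.1 c).neg, fun c d e => (h.2 c d e).neg⟩

include hp in
theorem LL.mul_loc {t s : ℚ} (h : LL p t) (hs : Loc p s) : LL p (t * s) :=
  ⟨fun c => by rw [← mul_assoc]; exact (h.1 c).mul hp hs, fun c d e => (h.2 c d e).mul hp hs⟩

include hp in
theorem LL.omega {x y x' y' : ℚ} (h : LV p x y) (h' : LV p x' y') :
    LL p (x * y' - y * x') := by
  refine ⟨fun c => ?_, fun c d e => ?_⟩
  · rcases c with c | c | c
    · have a := h.1 c; have b := h'.1 c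
      rw [show (p : ℚ) * (x * y' - y * x') = (p * x) * y' - y * (p * x') by ring]
      exact (a.1.mul hp b.2).sub hp (a.2.mul hp b.1)
    · have a := h.2.1 c; have b := h'.2.1 c
      rw [show (p : ℚ) * (x * y' - y * x') = x * (p * y') - (p * y) * x' by ring]
      exact (a.1.mul hp b.2).sub hp (a.2.mul hp b.1)
    · have a := h.2.2.1 c; have b := h'.2.2.1 c
      rw [show (p : ℚ) * (x * y' - y * x') = (x - y) * (p * x') - (p * x) * (x' - y') by ring]
      exact (a.2.mul hp b.1).sub hp (a.1.mul hp b.2)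
  · have a := h.2.2.2 c d e; have b := h'.2.2.2 c d e
    exact (a.1.mul hp b.2).sub hp (a.2.mul hp b.1)

end loc

theorem LV.two {x y : ℚ} (h : LV 2 x y) : Loc 2 x ∧ Loc 2 y :=
  h.2.2.2 (by norm_num) (by norm_num) (by norm_num)

/-- the group -/
def GG : Subgroup H3 where
  carrier := {g | (∀ p : ℕ, p.Prime → LV p g.x g.y ∧ LL p g.t) ∧ Loc 2 ((g.t - g.x * g.y) / 2)}
  one_mem' := by
    refine ⟨fun p hp => ⟨?_, ?_⟩, ?_⟩
    · exact LV.of_loc hp (Loc.zero hp) (Loc.zero hp)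
    · exact LL.of_loc hp (Loc.zero hp)
    · simpa using Loc.zero Nat.prime_two
  mul_mem' := by
    rintro a b ⟨ha, ha2⟩ ⟨hb, hb2⟩
    refine ⟨fun p hp => ⟨?_, ?_⟩, ?_⟩
    · exact (ha p hp).1.add hp (hb p hp).1
    · exact ((ha p hp).2.add hp (hb p hp).2).add hp (LL.omega hp (ha p hp).1 (hb p hp).1)
    · have h1 := (ha 2 Nat.prime_two).1.two
      have h2 := (hb 2 Nat.prime_two).1.two
      have e : ((a * b).t - (a * b).x * (a * b).y) / 2 =
          (a.t - a.x * a.y) / 2 + (b.t - b.x * b.y) / 2 - a.y * b.x := by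
        simp only [H3.mul_x, H3.mul_y, H3.mul_t]; ring
      rw [e]
      exact (ha2.add Nat.prime_two hb2).sub Nat.prime_two (h1.2.mul Nat.prime_two h2.1)
  inv_mem' := by
    rintro a ⟨ha, ha2⟩
    refine ⟨fun p hp => ⟨?_, ?_⟩, ?_⟩
    · exact (ha p hp).1.neg
    · exact (ha p hp).2.neg
    · have h1 := (ha 2 Nat.prime_two).1.two
      have e : ((a⁻¹).t - (a⁻¹).x * (a⁻¹).y) / 2 = -((a.t - a.x * a.y) / 2) - a.x * a.y := by
        simp only [H3.inv_x, H3.inv_y, H3.inv_t]; ring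
      rw [e]
      exact ha2.neg.sub Nat.prime_two (h1.1.mul Nat.prime_two h1.2)

theorem mem_GG {g : H3} : g ∈ GG ↔
    (∀ p : ℕ, p.Prime → LV p g.x g.y ∧ LL p g.t) ∧ Loc 2 ((g.t - g.x * g.y) / 2) := Iff.rfl

theorem weak {g : H3} (hg : g ∈ GG) {p : ℕ} (hp : p.Prime) :
    Loc p (p * g.x) ∧ Loc p (p * g.y) ∧ Loc p (p * g.t) := by
  obtain ⟨h1, h2⟩ := (mem_GG.1 hg).1 p hp
  have ht : Loc p (p * g.t) := by
    by_cases c : p % 8 = 1 ∨ p % 8 = 3 ∨ p % 8 = 5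
    · exact h2.1 c
    · push Not at c
      exact (h2.2 c.1 c.2.1 c.2.2).nat_mul hp
  by_cases c1 : p % 8 = 1
  · have a := h1.1 c1
    exact ⟨a.1, a.2.nat_mul hp, ht⟩
  by_cases c3 : p % 8 = 3
  · have a := h1.2.1 c3
    exact ⟨a.1.nat_mul hp, a.2, ht⟩
  by_cases c5 : p % 8 = 5
  · have a := h1.2.2.1 c5
    refine ⟨a.1, ?_, ht⟩
    rw [show (p : ℚ) * g.y = p * g.x - p * (g.x - g.y) by ring]
    exact a.1.sub hp (a.2.nat_mul hp)
  · have a := h1.2.2.2 c1 c3 c5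
    exact ⟨a.1.nat_mul hp, a.2.nat_mul hp, ht⟩

/-- the projection to the plane -/
def psi : GG →* Multiplicative (ℚ × ℚ) where
  toFun g := Multiplicative.ofAdd (g.1.x, g.1.y)
  map_one' := rfl
  map_mul' _ _ := rfl

/-- the central subgroup -/
def LG : Subgroup GG := psi.ker

theorem mem_LG {g : GG} : g ∈ LG ↔ g.1.x = 0 ∧ g.1.y = 0 := by
  change Multiplicative.ofAdd (g.1.x, g.1.y) = Multiplicative.ofAdd (0, 0) ↔ _
  rw [Multiplicative.ofAdd.injective.eq_iff, Prod.mk.injEq]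

instance : LG.Normal := by unfold LG; infer_instance

theorem LG_central {l : GG} (hl : l ∈ LG) (g : GG) : l * g = g * l := by
  obtain ⟨h1, h2⟩ := mem_LG.1 hl
  apply Subtype.ext
  ext
  · simp [h1]
  · simp [h2]
  · simp [h1, h2, add_comm]

theorem comm_LG (g h : GG) : ∃ l ∈ LG, g * h = h * g * l := by
  refine ⟨(h * g)⁻¹ * (g * h), ?_, by group⟩
  rw [mem_LG]
  constructor
  · simp; ring
  · simp; ring

theorem GG_pow_x (g : GG) (n : ℕ) : (g ^ n).1.x = n * g.1.x := by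
  rw [← H3.pow_x]; rfl

theorem GG_pow_y (g : GG) (n : ℕ) : (g ^ n).1.y = n * g.1.y := by
  rw [← H3.pow_y]; rfl

theorem GG_pow_t (g : GG) (n : ℕ) : (g ^ n).1.t = n * g.1.t := by
  rw [← H3.pow_t]; rfl

theorem GG_rk : Rk GG := H3.rk.of_injective GG.subtype GG.subtype_injective

theorem GG_tf : TF GG := fun g n hn h =>
  Subtype.ext (H3.tf g.1 n hn (congrArg Subtype.val h))

theorem GG_hc : HC GG := by
  intro S hS
  by_cases hc : ∀ a ∈ S, ∀ b ∈ S, a * b = b * a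
  · obtain ⟨z, hz1⟩ := Subgroup.ne_bot_iff_exists_ne_one.1 hS
    exact ⟨z.1, z.2, fun h => hz1 (Subtype.ext h), fun g hg => hc z.1 z.2 g hg⟩
  · push Not at hc
    obtain ⟨a, ha, b, hb, hab⟩ := hc
    obtain ⟨l, hl, e⟩ := comm_LG a b
    refine ⟨l, ?_, ?_, fun g _ => LG_central hl g⟩
    · have : l = (b * a)⁻¹ * (a * b) := by rw [e]; group
      rw [this]
      exact S.mul_mem (S.inv_mem (S.mul_mem hb ha)) (S.mul_mem ha hb)
    · rintro rfl
      rw [mul_one] at e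
      exact hab e

theorem coord_zero {t : ℚ} (h : ∀ N : ℕ, ∃ p : ℕ, p.Prime ∧ N < p ∧ Loc p (t / p)) : t = 0 := by
  by_contra ht
  obtain ⟨B, hB⟩ := not_loc_div ht
  obtain ⟨p, hp, hNp, hl⟩ := h B
  exact hB p hp hNp hl

/-- an element of the group divisible by the squares of infinitely many primes is trivial -/
theorem sq_div {g : GG} (h : ∀ N : ℕ, ∃ p : ℕ, p.Prime ∧ N < p ∧ ∃ r : GG, r ^ (p ^ 2) = g) :
    g = 1 := by
  have key : ∀ (f : H3 → ℚ), (∀ (a : GG) (n : ℕ), f (a ^ n).1 = n * f a.1) →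
      (∀ (a : GG) (p : ℕ), p.Prime → Loc p (p * f a.1)) → f g.1 = 0 := by
    intro f hf hw
    apply coord_zero
    intro N
    obtain ⟨p, hp, hNp, r, hr⟩ := h N
    refine ⟨p, hp, hNp, ?_⟩
    have hp0 : (p : ℚ) ≠ 0 := by exact_mod_cast hp.ne_zero
    have := hw r p hp
    rw [← hr, hf]
    push_cast
    rw [show (p : ℚ) ^ 2 * f r.1 / p = p * f r.1 by field_simp]
    exact this
  apply Subtype.ext
  ext
  · exact key H3.x GG_pow_x (fun a p hp => (weak a.2 hp).1)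
  · exact key H3.y GG_pow_y (fun a p hp => (weak a.2 hp).2.1)
  · exact key H3.t GG_pow_t (fun a p hp => (weak a.2 hp).2.2)

/-- the special primes -/
def SP (p : ℕ) : Prop := p.Prime ∧ (p % 8 = 1 ∨ p % 8 = 3 ∨ p % 8 = 5)

theorem ex_prime (a N : ℕ) (ha : a.Coprime 8) (ha8 : a < 8) :
    ∃ p : ℕ, p.Prime ∧ N < p ∧ p % 8 = a := by
  obtain ⟨p, h1, h2, h3⟩ := Nat.forall_exists_prime_gt_and_modEq N (q := 8) (a := a)
    (by norm_num) ha
  refine ⟨p, h2, h1, ?_⟩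
  have : p % 8 = a % 8 := h3
  rw [this, Nat.mod_eq_of_lt ha8]

/-- an element divisible by all large special primes is central -/
theorem in_LG {g : GG} (h : ∃ B : ℕ, ∀ p, SP p → B < p → ∃ r : GG, r ^ p = g) : g ∈ LG := by
  obtain ⟨B, hB⟩ := h
  rw [mem_LG]
  constructor
  · apply coord_zero
    intro N
    obtain ⟨p, hp, hNp, hp8⟩ := ex_prime 3 (max N B) (by norm_num) (by norm_num)
    refine ⟨p, hp, by omega, ?_⟩
    obtain ⟨r, hr⟩ := hB p ⟨hp, by omega⟩ (by omega)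
    have hp0 : (p : ℚ) ≠ 0 := by exact_mod_cast hp.ne_zero
    rw [← hr, GG_pow_x, mul_div_cancel_left₀ _ hp0]
    exact (((mem_GG.1 r.2).1 p hp).1.2.1 hp8).1
  · apply coord_zero
    intro N
    obtain ⟨p, hp, hNp, hp8⟩ := ex_prime 1 (max N B) (by norm_num) (by norm_num)
    refine ⟨p, hp, by omega, ?_⟩
    obtain ⟨r, hr⟩ := hB p ⟨hp, by omega⟩ (by omega)
    have hp0 : (p : ℚ) ≠ 0 := by exact_mod_cast hp.ne_zero
    rw [← hr, GG_pow_y, mul_div_cancel_left₀ _ hp0]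
    exact (((mem_GG.1 r.2).1 p hp).1.1 hp8).2

theorem not_dvd_prime {p q : ℕ} (hp : p.Prime) (hq : q.Prime) (h : q ≠ p) : ¬ (q : ℤ) ∣ (p : ℤ) := by
  intro hd
  exact h ((Nat.prime_dvd_prime_iff_eq hq hp).1 (by exact_mod_cast hd))

theorem loc_inv {p q : ℕ} (hp : p.Prime) (hq : q.Prime) (h : q ≠ p) : Loc q (1 / (p : ℚ)) := by
  have := Loc.inv (p := q) (q := (p : ℤ)) (not_dvd_prime hp hq h)
  simpa using this

/-- central elements are divisible by all large special primes -/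
theorem div_LG {z : GG} (hz : z ∈ LG) : ∃ B : ℕ, ∀ p, SP p → B < p → ∃ w ∈ LG, w ^ p = z := by
  refine ⟨z.1.t.den, fun p hp hB => ?_⟩
  obtain ⟨hx, hy⟩ := mem_LG.1 hz
  obtain ⟨hp1, hp8⟩ := hp
  have hp0 : (p : ℚ) ≠ 0 := by exact_mod_cast hp1.ne_zero
  have hmem : (⟨0, 0, z.1.t / p⟩ : H3) ∈ GG := by
    rw [mem_GG]
    refine ⟨fun q hq => ⟨LV.of_loc hq (Loc.zero hq) (Loc.zero hq), ?_⟩, ?_⟩
    · by_cases hqp : q = p
      · subst hqp
        refine ⟨fun _ => ?_, fun c d e => ?_⟩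
        · simp only
          rw [mul_div_cancel₀ _ hp0]
          exact loc_large _ hB
        · exfalso
          rcases hp8 with h | h | h
          · exact c h
          · exact d h
          · exact e h
      · have := ((mem_GG.1 z.2).1 q hq).2.mul_loc hq (loc_inv hp1 hq hqp)
        simpa [div_eq_mul_inv] using this
    · have h2 := (mem_GG.1 z.2).2
      rw [hx, hy] at h2
      have hne : (2 : ℕ) ≠ p := by rintro rfl; omega
      have := h2.mul Nat.prime_two (loc_inv hp1 Nat.prime_two hne)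
      simp only
      rw [show (z.1.t / p - 0 * 0) / 2 = (z.1.t - 0 * 0) / 2 * (1 / (p : ℚ)) by ring]
      exact this
  refine ⟨⟨_, hmem⟩, mem_LG.2 ⟨rfl, rfl⟩, ?_⟩
  apply Subtype.ext
  ext
  · rw [GG_pow_x, hx]; simp
  · rw [GG_pow_y, hy]; simp
  · rw [GG_pow_t]; simp only; rw [mul_div_cancel₀ _ hp0]

/-- two nontrivial central elements are dependent -/
theorem LG_dep {z w : GG} (hz : z ∈ LG) (hw : w ∈ LG) (hz1 : z ≠ 1) (hw1 : w ≠ 1) :
    ∃ a b : ℤ, a ≠ 0 ∧ b ≠ 0 ∧ (a : ℚ) * w.1.t = b * z.1.t := by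
  have hzt : z.1.t ≠ 0 := by
    intro h; apply hz1; apply Subtype.ext
    obtain ⟨hx, hy⟩ := mem_LG.1 hz
    ext
    · exact hx
    · exact hy
    · exact h
  have hwt : w.1.t ≠ 0 := by
    intro h; apply hw1; apply Subtype.ext
    obtain ⟨hx, hy⟩ := mem_LG.1 hw
    ext
    · exact hx
    · exact hy
    · exact h
  refine ⟨z.1.t.num * w.1.t.den, w.1.t.num * z.1.t.den, ?_, ?_, ?_⟩
  · exact mul_ne_zero (Rat.num_ne_zero.2 hzt) (by exact_mod_cast w.1.t.den_nz)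
  · exact mul_ne_zero (Rat.num_ne_zero.2 hwt) (by exact_mod_cast z.1.t.den_nz)
  · push_cast
    have h1 := Rat.mul_den_eq_num z.1.t
    have h2 := Rat.mul_den_eq_num w.1.t
    rw [← h1, ← h2]; ring

end Pool.Agent.R646.B
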