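import Mathlib
import Pool.Agent.R646.B.Grp2

/-!
# The central subgroup acts trivially
-/

namespace Pool.Agent.R646.B

/-- the central coordinate -/
def tL : LG →* Multiplicative ℚ where
  toFun l := Multiplicative.ofAdd l.1.1.t
  map_one' := rfl
  map_mul' a b := by
    have ha := mem_LG.1 a.2
    have hb := mem_LG.1 b.2
    change Multiplicative.ofAdd (a.1.1.t + b.1.1.t + (a.1.1.x * b.1.1.y - a.1.1.y * b.1.1.x)) = _
    rw [ha.1, ha.2, zero_mul, zero_mul, sub_zero, add_zero]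
    rfl

theorem tL_inj : Function.Injective tL := by
  intro a b h
  have ha := mem_LG.1 a.2
  have hb := mem_LG.1 b.2
  apply Subtype.ext
  apply Subtype.ext
  ext
  · rw [ha.1, hb.1]
  · rw [ha.2, hb.2]
  · exact Multiplicative.ofAdd.injective h

namespace Coc

variable {A : Type*} [AddCommGroup A] (C : Coc ℤ GG A)

include C in
theorem hA (n : ℤ) (a : A) (h : n • a = 0) : n = 0 ∨ a = 0 :=
  C.tors_free GG_rk GG_tf GG_hc n a h

include C in
theorem cancel (n : ℕ) (hn : n ≠ 0) {a b : A} (h : n • a = n • b) : a = b := by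
  have : (n : ℤ) • (a - b) = 0 := by
    rw [natCast_zsmul, smul_sub, h, sub_self]
  rcases C.hA _ _ this with h1 | h1
  · exact absurd (by exact_mod_cast h1) hn
  · exact sub_eq_zero.1 h1

include C in
theorem two_zero {a : A} (h : a + a = 0) : a = 0 :=
  C.cancel 2 (by norm_num) (by rw [two_smul, h, smul_zero])

theorem self_zero {z : GG} (hz : z ∈ LG) : (C.lam z - 1) (C.pi z) = 0 := by
  obtain ⟨B, hB⟩ := div_LG hz
  apply C.div_central C.hA GG_rk (LG_central hz) {p | SP p ∧ B < p}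
  · rintro p ⟨h1, h2⟩
    obtain ⟨w, hw, hwp⟩ := hB p h1 h2
    exact ⟨h1.1.ne_zero, w, LG_central hw, hwp⟩
  · intro g hg
    apply sq_div
    intro N
    obtain ⟨p, hp, hNp, hp8⟩ := ex_prime 1 (max N B) (by norm_num) (by norm_num)
    exact ⟨p, hp, by omega, hg p ⟨⟨hp, Or.inl hp8⟩, by omega⟩⟩

/-- the operator attached to a group element -/
noncomputable def nn (g : GG) : Module.End ℤ A := C.lam g - 1

theorem nn_apply (g : GG) (a : A) : C.nn g a = C.lam g a - a := rfl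

theorem lam_apply (g : GG) (a : A) : C.lam g a = a + C.nn g a := by
  rw [nn_apply]; abel

theorem lam_pi {z : GG} (hz : z ∈ LG) (g : GG) : C.lam g (C.pi z) = C.pi z + C.nn z (C.pi g) :=
  C.central (LG_central hz) g

theorem lam_nn {z : GG} (hz : z ∈ LG) (g : GG) (a : A) :
    C.lam g (C.nn z a) = C.nn z (C.lam g a) :=
  congrArg (fun T : Module.End ℤ A => T a) (C.lam_comm (LG_central hz) g).eq

theorem nn_sq {z : GG} (hz : z ∈ LG) (a : A) : C.nn z (C.nn z a) = 0 := by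
  obtain ⟨g, rfl⟩ := C.bij.2 a
  have h := C.lam_pi hz g
  have h0 : C.nn z (C.pi z) = 0 := C.self_zero hz
  have h2 : C.nn z (C.pi g) = C.lam g (C.pi z) - C.pi z := by rw [h]; abel
  rw [h2, map_sub, h0, ← C.lam_nn hz, h0, map_zero, sub_zero]

theorem nn_mul (g h : GG) (a : A) : C.nn (g * h) a = C.nn g a + C.nn h a + C.nn g (C.nn h a) := by
  rw [nn_apply, lam_mul_apply, C.lam_apply h a, C.lam_apply g, map_add]; abel

theorem nn_comm {z w : GG} (hz : z ∈ LG) (a : A) :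
    C.nn w (C.nn z a) = C.nn z (C.nn w a) := by
  rw [C.nn_apply w, C.lam_nn hz, ← map_sub, C.nn_apply w]

theorem nn_nn {z w : GG} (hz : z ∈ LG) (hw : w ∈ LG) (a : A) : C.nn z (C.nn w a) = 0 := by
  have h := C.nn_sq (LG.mul_mem hz hw) a
  rw [C.nn_mul z w, C.nn_mul z w a] at h
  simp only [map_add] at h
  have z2 := C.nn_sq hz
  have w2 := C.nn_sq hw
  have cm : ∀ b, C.nn w (C.nn z b) = C.nn z (C.nn w b) := fun b => C.nn_comm hz b
  simp only [z2, w2, cm, map_zero, zero_add, add_zero] at h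
  apply C.two_zero
  convert h using 1

theorem nn_pi {z w : GG} (hz : z ∈ LG) (hw : w ∈ LG) : C.nn z (C.pi w) = 0 := by
  have h : C.nn (z * w) (C.pi (z * w)) = 0 := C.self_zero (LG.mul_mem hz hw)
  have h1 : C.pi (z * w) = C.pi z + C.pi w + C.nn z (C.pi w) := by
    rw [C.coc, C.lam_apply]; abel
  have hzz : C.nn z (C.pi z) = 0 := C.self_zero hz
  have hww : C.nn w (C.pi w) = 0 := C.self_zero hw
  have hs : C.nn w (C.pi z) = C.nn z (C.pi w) := by
    have := C.lam_pi hz w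
    rw [C.lam_apply] at this
    exact add_left_cancel this
  rw [h1, C.nn_mul] at h
  simp only [map_add, hzz, hww, hs, C.nn_nn hz hz, C.nn_nn hw hz, add_zero, zero_add] at h
  exact C.two_zero h

theorem lam_e {z : GG} (hz : z ∈ LG) {g : GG} (hg : C.nn z (C.pi g) = 0) (v : GG) :
    C.lam g (C.nn z (C.pi v)) = C.nn z (C.pi v) := by
  obtain ⟨l, hl, e⟩ := comm_LG g v
  have h1 : C.lam (g * v) (C.pi z) = C.pi z + C.lam g (C.nn z (C.pi v)) := by
    rw [lam_mul_apply, C.lam_pi hz v, map_add, C.lam_pi hz g, hg, add_zero]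
  have h2 : C.lam (v * g * l) (C.pi z) = C.pi z + C.nn z (C.pi v) := by
    rw [lam_mul_apply, C.lam_pi hz l, C.nn_pi hz hl, add_zero, lam_mul_apply, C.lam_pi hz g, hg,
      add_zero, C.lam_pi hz v]
  rw [e, h2] at h1
  exact (add_left_cancel h1).symm

theorem nn_pow {w : GG} (hw : w ∈ LG) (n : ℕ) (a : A) : C.nn (w ^ n) a = n • C.nn w a := by
  induction n with
  | zero => rw [pow_zero, nn_apply, map_one, zero_smul]; simp
  | succ n ih =>
    rw [pow_succ, C.nn_mul, ih, C.nn_nn (LG.pow_mem hw n) hw, add_zero, succ_nsmul]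

/-- the value of `nn z` at any point is the value of the cocycle at a central element -/
theorem e_mem {z : GG} (hz : z ∈ LG) (v : GG) : C.iv (C.nn z (C.pi v)) ∈ LG := by
  obtain ⟨B, hB⟩ := div_LG hz
  apply in_LG
  refine ⟨B, fun p hp hBp => ?_⟩
  obtain ⟨w, hw, hwz⟩ := hB p hp hBp
  refine ⟨C.iv (C.nn w (C.pi v)), ?_⟩
  have h1 : C.nn z (C.pi v) = p • C.nn w (C.pi v) := by rw [← hwz, C.nn_pow hw]
  have h2 : C.nn z (C.pi (C.iv (C.nn w (C.pi v)))) = 0 := by rw [C.pi_iv, C.nn_nn hz hw]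
  have h3 := C.lam_e hz h2 v
  have h4 : C.lam (C.iv (C.nn w (C.pi v))) (C.nn w (C.pi v)) = C.nn w (C.pi v) := by
    rw [h1, map_nsmul] at h3
    exact C.cancel p hp.1.ne_zero h3
  apply C.inj
  rw [C.pi_pow_of_fix (by rw [C.pi_iv]; exact h4), C.pi_iv, C.pi_iv, h1]

/-- the cocycle is additive on the central subgroup -/
def piL : LG →* Multiplicative A where
  toFun l := Multiplicative.ofAdd (C.pi l)
  map_one' := by
    change Multiplicative.ofAdd (C.pi 1) = _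
    rw [C.pi_one]; rfl
  map_mul' a b := by
    change Multiplicative.ofAdd (C.pi (a * b : GG)) = Multiplicative.ofAdd (C.pi a + C.pi b)
    rw [C.coc, C.lam_apply, C.nn_pi a.2 b.2, add_zero]

theorem pi_dep {z w : GG} (hz : z ∈ LG) (hw : w ∈ LG) {a b : ℤ}
    (h : (a : ℚ) * w.1.t = b * z.1.t) : a • C.pi w = b • C.pi z := by
  have h1 : (⟨w, hw⟩ : LG) ^ a = (⟨z, hz⟩ : LG) ^ b := by
    apply tL_inj
    rw [map_zpow, map_zpow]
    change Multiplicative.ofAdd (a • w.1.t) = Multiplicative.ofAdd (b • z.1.t)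
    rw [zsmul_eq_mul, zsmul_eq_mul, h]
  have h2 := congrArg C.piL h1
  rw [map_zpow, map_zpow] at h2
  exact Multiplicative.ofAdd.injective h2

theorem nn_zero_pi {z : GG} (hz : z ∈ LG) (v : GG) : C.nn z (C.pi v) = 0 := by
  by_contra he
  set e := C.nn z (C.pi v) with hedef
  have hE := C.e_mem hz v
  rw [← hedef] at hE
  have hz1 : z ≠ 1 := by
    rintro rfl
    apply he
    rw [hedef, nn_apply, map_one]; simp
  have hE1 : C.iv e ≠ 1 := by
    intro h
    apply he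
    rw [← C.pi_iv e, h, C.pi_one]
  obtain ⟨a, b, ha, hb, hab⟩ := LG_dep hz hE hz1 hE1
  have hab' := C.pi_dep hz hE hab
  rw [C.pi_iv] at hab'
  have hc : C.pi z ≠ 0 := fun h => hz1 (C.eq_one h)
  set g : Fin 4 → GG := fun i => C.iv ((b * sylP (b ^ 2) (i : ℕ) * a) • C.pi v) with hg
  have hgz : ∀ i, C.lam (g i) (C.pi z) = syl (b ^ 2) (i : ℕ) • C.pi z := by
    intro i
    rw [C.lam_pi hz, hg]
    simp only
    rw [C.pi_iv, map_zsmul, ← hedef, mul_smul, hab', smul_smul]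
    change C.pi z + _ = (1 + b ^ 2 * sylP (b ^ 2) (i : ℕ)) • C.pi z
    rw [add_smul, one_smul]
    congr 2; ring
  have hgp : ∀ i n, C.lam (g i ^ n) (C.pi z) = (syl (b ^ 2) (i : ℕ)) ^ n • C.pi z := by
    intro i n
    induction n with
    | zero => simp
    | succ n ih =>
      rw [pow_succ (g i), lam_mul_apply, hgz, map_smul, ih, smul_smul, pow_succ' (syl _ _)]
  obtain ⟨p, q, h1, h2, h3⟩ := lin_rel (W := ℚ × ℚ) (by simp)
    (fun i => Multiplicative.toAdd (psi (g i)))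
  have hW : ∀ p : Fin 4 → ℕ, C.lam (g 0 ^ p 0 * g 1 ^ p 1 * g 2 ^ p 2 * g 3 ^ p 3) (C.pi z) =
      (∏ i : Fin 4, syl (b ^ 2) (i : ℕ) ^ p i) • C.pi z := by
    intro p
    rw [lam_mul_apply, lam_mul_apply, lam_mul_apply]
    simp only [map_smul, hgp, smul_smul, Fin.prod_univ_four]
    congr 1
    ring
  have hpsi : ∀ p : Fin 4 → ℕ,
      Multiplicative.toAdd (psi (g 0 ^ p 0 * g 1 ^ p 1 * g 2 ^ p 2 * g 3 ^ p 3)) =
      ∑ i, p i • Multiplicative.toAdd (psi (g i)) := by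
    intro p
    simp only [map_mul, map_pow, toAdd_mul, toAdd_pow, Fin.sum_univ_four]
  have hl : (g 0 ^ q 0 * g 1 ^ q 1 * g 2 ^ q 2 * g 3 ^ q 3)⁻¹ *
      (g 0 ^ p 0 * g 1 ^ p 1 * g 2 ^ p 2 * g 3 ^ p 3) ∈ LG := by
    change psi _ = 1
    rw [map_mul, map_inv, inv_mul_eq_one]
    apply Multiplicative.toAdd.injective
    rw [hpsi, hpsi, h3]
  have hfin : (∏ i : Fin 4, syl (b ^ 2) (i : ℕ) ^ p i) • C.pi z =
      (∏ i : Fin 4, syl (b ^ 2) (i : ℕ) ^ q i) • C.pi z := by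
    rw [← hW, ← hW]
    have e1 : g 0 ^ p 0 * g 1 ^ p 1 * g 2 ^ p 2 * g 3 ^ p 3 =
      (g 0 ^ q 0 * g 1 ^ q 1 * g 2 ^ q 2 * g 3 ^ q 3) *
      ((g 0 ^ q 0 * g 1 ^ q 1 * g 2 ^ q 2 * g 3 ^ q 3)⁻¹ *
      (g 0 ^ p 0 * g 1 ^ p 1 * g 2 ^ p 2 * g 3 ^ p 3)) := by group
    rw [e1, lam_mul_apply, C.lam_pi hz, C.nn_pi hz hl, add_zero]
  rw [← sub_eq_zero, ← sub_smul] at hfin
  rcases C.hA _ _ hfin with h4 | h4
  · exact indep' (s := fun i : Fin 4 => syl (b ^ 2) (i : ℕ))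
      (fun i j hij => syl_coprime _ (fun h => hij (Fin.ext h)))
      (fun i => syl_int_not_unit hb i) h1 (sub_eq_zero.1 h4) h2
  · exact hc h4

/-- the central subgroup acts trivially -/
theorem lam_LG {z : GG} (hz : z ∈ LG) : C.lam z = 1 := by
  apply LinearMap.ext
  intro a
  obtain ⟨g, rfl⟩ := C.bij.2 a
  rw [C.lam_apply, C.nn_zero_pi hz, add_zero]; rfl

/-- and its values are fixed -/
theorem lam_pi_LG {z : GG} (hz : z ∈ LG) (g : GG) : C.lam g (C.pi z) = C.pi z := by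
  rw [C.lam_pi hz, C.nn_zero_pi hz, add_zero]

end Coc

end Pool.Agent.R646.B
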