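import Mathlib
import Pool.Agent.R646.B.Cen

/-!
# The quotient by the central subgroup
-/

namespace Pool.Agent.R646.B

/-- the plane group -/
abbrev VV := GG ⧸ LG

theorem VV_comm (a b : VV) : a * b = b * a := by
  induction a using QuotientGroup.induction_on with
  | H g =>
    induction b using QuotientGroup.induction_on with
    | H h =>
      obtain ⟨l, hl, e⟩ := comm_LG g h
      rw [← QuotientGroup.mk_mul, ← QuotientGroup.mk_mul, e]
      exact QuotientGroup.mk_mul_of_mem _ hl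

/-- the coordinates on the plane group -/
def psiQ : VV →* Multiplicative (ℚ × ℚ) := QuotientGroup.kerLift psi

theorem psiQ_inj : Function.Injective psiQ := QuotientGroup.kerLift_injective psi

theorem psiQ_mk (g : GG) : psiQ (g : VV) = Multiplicative.ofAdd (g.1.x, g.1.y) := rfl

theorem rk_QQ : Rk (Multiplicative (ℚ × ℚ)) := by
  intro M _ h u
  obtain ⟨p, q, h1, h2, h3⟩ := lin_rel (W := ℚ × ℚ) (by simp)
    (fun i => Multiplicative.toAdd (h (u i)))
  refine ⟨p, q, h1, h2, ?_⟩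
  apply Multiplicative.toAdd.injective
  rw [Fin.sum_univ_four, Fin.sum_univ_four] at h3
  simp only [Fin.prod_univ_four, map_mul, map_pow, toAdd_mul, toAdd_pow]
  exact h3

theorem VV_rk : Rk VV := rk_QQ.of_injective psiQ psiQ_inj

theorem VV_tf : TF VV := by
  intro g n hn h
  apply psiQ_inj
  apply Multiplicative.toAdd.injective
  have h1 : n • Multiplicative.toAdd (psiQ g) = 0 := by
    rw [← toAdd_pow, ← map_pow, h, map_one]; rfl
  rw [map_one]
  have h2 : (n : ℚ) • Multiplicative.toAdd (psiQ g) = 0 := by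
    rw [← h1, Nat.cast_smul_eq_nsmul]
  rcases smul_eq_zero.1 h2 with h3 | h3
  · exact absurd (by exact_mod_cast h3) hn
  · exact h3

theorem VV_hc : HC VV := by
  intro S hS
  obtain ⟨z, hz1⟩ := Subgroup.ne_bot_iff_exists_ne_one.1 hS
  exact ⟨z.1, z.2, fun h => hz1 (Subtype.ext h), fun g _ => VV_comm _ _⟩

theorem VV_sq_div {v : VV}
    (h : ∀ N : ℕ, ∃ p : ℕ, p.Prime ∧ N < p ∧ ∃ r : VV, r ^ (p ^ 2) = v) : v = 1 := by
  induction v using QuotientGroup.induction_on with
  | H g =>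
    have key : ∀ N : ℕ, ∃ p : ℕ, p.Prime ∧ N < p ∧ Loc p (g.1.x / p) ∧ Loc p (g.1.y / p) := by
      intro N
      obtain ⟨p, hp, hNp, r, hr⟩ := h N
      refine ⟨p, hp, hNp, ?_⟩
      induction r using QuotientGroup.induction_on with
      | H r =>
        have hp0 : (p : ℚ) ≠ 0 := by exact_mod_cast hp.ne_zero
        have e : psiQ ((r ^ (p ^ 2) : GG) : VV) = psiQ (g : VV) := by
          rw [← hr]; rfl
        rw [psiQ_mk, psiQ_mk] at e
        have e2 := Multiplicative.ofAdd.injective e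
        rw [Prod.mk.injEq, GG_pow_x, GG_pow_y] at e2
        rw [← e2.1, ← e2.2]
        push_cast
        rw [show (p : ℚ) ^ 2 * r.1.x / p = p * r.1.x by field_simp,
          show (p : ℚ) ^ 2 * r.1.y / p = p * r.1.y by field_simp]
        exact ⟨(weak r.2 hp).1, (weak r.2 hp).2.1⟩
    rw [QuotientGroup.eq_one_iff, mem_LG]
    constructor
    · apply coord_zero
      intro N
      obtain ⟨p, a, b, c, _⟩ := key N
      exact ⟨p, a, b, c⟩
    · apply coord_zero
      intro N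
      obtain ⟨p, a, b, _, c⟩ := key N
      exact ⟨p, a, b, c⟩

/-! ### special elements -/

theorem mem1 : (⟨1, 0, 0⟩ : H3) ∈ GG := by
  rw [mem_GG]
  refine ⟨fun q hq => ⟨LV.of_loc hq (Loc.one hq) (Loc.zero hq), LL.of_loc hq (Loc.zero hq)⟩, ?_⟩
  simpa using Loc.zero Nat.prime_two

theorem mem2 : (⟨0, 1, 0⟩ : H3) ∈ GG := by
  rw [mem_GG]
  refine ⟨fun q hq => ⟨LV.of_loc hq (Loc.zero hq) (Loc.one hq), LL.of_loc hq (Loc.zero hq)⟩, ?_⟩
  simpa using Loc.zero Nat.prime_two

/-- first basic element -/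
def e1 : GG := ⟨_, mem1⟩
/-- second basic element -/
def e2 : GG := ⟨_, mem2⟩

theorem root1 {p : ℕ} (hp : p.Prime) (h8 : p % 8 = 1) : ∃ r : GG, r ^ p = e1 := by
  have hp0 : (p : ℚ) ≠ 0 := by exact_mod_cast hp.ne_zero
  have hmem : (⟨1 / p, 0, 0⟩ : H3) ∈ GG := by
    rw [mem_GG]
    refine ⟨fun q hq => ⟨?_, LL.of_loc hq (Loc.zero hq)⟩, by simpa using Loc.zero Nat.prime_two⟩
    by_cases hqp : q = p
    · subst hqp
      refine ⟨fun _ => ⟨?_, Loc.zero hq⟩, fun c => by omega, fun c => by omega,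
        fun c _ _ => absurd h8 c⟩
      simp only
      rw [mul_one_div_cancel hp0]; exact Loc.one hq
    · exact LV.of_loc hq (loc_inv hp hq hqp) (Loc.zero hq)
  refine ⟨⟨_, hmem⟩, ?_⟩
  apply Subtype.ext
  ext
  · rw [GG_pow_x]; simp only; rw [mul_one_div_cancel hp0]; rfl
  · rw [GG_pow_y]; simp only; rw [mul_zero]; rfl
  · rw [GG_pow_t]; simp only; rw [mul_zero]; rfl

theorem root2 {p : ℕ} (hp : p.Prime) (h8 : p % 8 = 3) : ∃ r : GG, r ^ p = e2 := by
  have hp0 : (p : ℚ) ≠ 0 := by exact_mod_cast hp.ne_zero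
  have hmem : (⟨0, 1 / p, 0⟩ : H3) ∈ GG := by
    rw [mem_GG]
    refine ⟨fun q hq => ⟨?_, LL.of_loc hq (Loc.zero hq)⟩, by simpa using Loc.zero Nat.prime_two⟩
    by_cases hqp : q = p
    · subst hqp
      refine ⟨fun c => by omega, fun _ => ⟨Loc.zero hq, ?_⟩, fun c => by omega,
        fun _ c _ => absurd h8 c⟩
      simp only
      rw [mul_one_div_cancel hp0]; exact Loc.one hq
    · exact LV.of_loc hq (Loc.zero hq) (loc_inv hp hq hqp)
  refine ⟨⟨_, hmem⟩, ?_⟩
  apply Subtype.ext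
  ext
  · rw [GG_pow_x]; simp only; rw [mul_zero]; rfl
  · rw [GG_pow_y]; simp only; rw [mul_one_div_cancel hp0]; rfl
  · rw [GG_pow_t]; simp only; rw [mul_zero]; rfl

theorem root3 {p : ℕ} (hp : p.Prime) (h8 : p % 8 = 5) : ∃ r : GG, r ^ p = e1 * e2 := by
  have hp0 : (p : ℚ) ≠ 0 := by exact_mod_cast hp.ne_zero
  have hp2 : (2 : ℕ) ≠ p := by rintro rfl; omega
  have hmem : (⟨1 / p, 1 / p, 1 / p⟩ : H3) ∈ GG := by
    rw [mem_GG]
    refine ⟨fun q hq => ?_, ?_⟩
    · by_cases hqp : q = p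
      · subst hqp
        refine ⟨⟨fun c => by omega, fun c => by omega, fun _ => ⟨?_, ?_⟩,
          fun _ _ c => absurd h8 c⟩, ⟨fun _ => ?_, fun _ _ c => absurd h8 c⟩⟩
        · simp only
          rw [mul_one_div_cancel hp0]; exact Loc.one hq
        · simp only
          rw [sub_self]; exact Loc.zero hq
        · simp only
          rw [mul_one_div_cancel hp0]; exact Loc.one hq
      · have := loc_inv hp hq hqp
        exact ⟨LV.of_loc hq this this, LL.of_loc hq this⟩
    · obtain ⟨m, hm⟩ : ∃ m : ℕ, p = 2 * m + 1 := ⟨p / 2, by omega⟩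
      have h2 := loc_inv hp Nat.prime_two hp2
      have e : ((1 / (p : ℚ)) - 1 / p * (1 / p)) / 2 = (m : ℤ) * ((1 / p) * (1 / p)) := by
        have : (p : ℚ) = 2 * m + 1 := by exact_mod_cast hm
        field_simp
        rw [this]; push_cast; ring
      simp only
      rw [e]
      exact (Loc.int Nat.prime_two _).mul Nat.prime_two (h2.mul Nat.prime_two h2)
  refine ⟨⟨_, hmem⟩, ?_⟩
  apply Subtype.ext
  ext
  · rw [GG_pow_x]; simp only; rw [mul_one_div_cancel hp0]; simp [e1, e2]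
  · rw [GG_pow_y]; simp only; rw [mul_one_div_cancel hp0]; simp [e1, e2]
  · rw [GG_pow_t]; simp only; rw [mul_one_div_cancel hp0]; simp [e1, e2]

theorem VV_gen (v : VV) : ∃ (m : ℕ) (a b : ℤ), m ≠ 0 ∧ v ^ m = (e1 : VV) ^ a * (e2 : VV) ^ b := by
  induction v using QuotientGroup.induction_on with
  | H g =>
    refine ⟨g.1.x.den * g.1.y.den, g.1.x.num * g.1.y.den, g.1.y.num * g.1.x.den,
      mul_ne_zero g.1.x.den_nz g.1.y.den_nz, ?_⟩
    apply psiQ_inj
    rw [map_pow, map_mul, map_zpow, map_zpow, psiQ_mk, psiQ_mk, psiQ_mk]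
    apply Multiplicative.toAdd.injective
    rw [toAdd_pow, toAdd_mul, toAdd_zpow, toAdd_zpow, toAdd_ofAdd, toAdd_ofAdd, toAdd_ofAdd]
    have h1 := Rat.mul_den_eq_num g.1.x
    have h2 := Rat.mul_den_eq_num g.1.y
    simp only [e1, e2, Prod.smul_mk, smul_zero, zsmul_eq_mul, nsmul_eq_mul, mul_one, Prod.mk_add_mk,
      add_zero, zero_add]
    push_cast
    rw [← h1, ← h2]
    refine Prod.ext ?_ ?_ <;> simp only <;> ring

end Pool.Agent.R646.B
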