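import Mathlib
import Pool.Agent.R646.B.Quo

/-!
# The plane group acts trivially, and the final contradiction
-/

namespace Pool.Agent.R646.B

namespace Coc

variable {A : Type*} [AddCommGroup A] (C : Coc ℤ GG A)

/-- values at central elements -/
def SA : AddSubgroup A where
  carrier := {a | ∃ l ∈ LG, C.pi l = a}
  zero_mem' := ⟨1, LG.one_mem, C.pi_one⟩
  add_mem' := by
    rintro a b ⟨l, hl, rfl⟩ ⟨m, hm, rfl⟩
    exact ⟨l * m, LG.mul_mem hl hm, by rw [C.coc, C.lam_pi_LG hm]⟩
  neg_mem' := by
    rintro a ⟨l, hl, rfl⟩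
    exact ⟨l⁻¹, LG.inv_mem hl, by rw [C.pi_inv, C.lam_pi_LG hl]⟩

/-- the same, as a submodule -/
def SS : Submodule ℤ A := AddSubgroup.toIntSubmodule C.SA

theorem mem_SS {a : A} : a ∈ C.SS ↔ ∃ l ∈ LG, C.pi l = a := Iff.rfl

theorem SS_le (g : GG) : C.SS ≤ C.SS.comap (C.lam g) := by
  intro a ha
  obtain ⟨l, hl, rfl⟩ := C.mem_SS.1 ha
  rw [Submodule.mem_comap, C.lam_pi_LG hl]
  exact ha

/-- the action on the quotient -/
def lamQ0 : GG →* Module.End ℤ (A ⧸ C.SS) where
  toFun g := C.SS.mapQ C.SS (C.lam g) (C.SS_le g)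
  map_one' := by
    apply LinearMap.ext
    intro a
    induction a using Submodule.Quotient.induction_on with
    | H a =>
      rw [Submodule.mapQ_apply, map_one]; rfl
  map_mul' g h := by
    apply LinearMap.ext
    intro a
    induction a using Submodule.Quotient.induction_on with
    | H a =>
      rw [Module.End.mul_apply, Submodule.mapQ_apply, Submodule.mapQ_apply, Submodule.mapQ_apply,
        map_mul]
      rfl

/-- the action of the plane group -/
def lamQ : VV →* Module.End ℤ (A ⧸ C.SS) :=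
  QuotientGroup.lift LG C.lamQ0 (by
    intro l hl
    apply LinearMap.ext
    intro a
    induction a using Submodule.Quotient.induction_on with
    | H a =>
      change C.SS.mapQ C.SS (C.lam l) (C.SS_le l) _ = _
      rw [Submodule.mapQ_apply, C.lam_LG hl]; rfl)

theorem lamQ_mk (g : GG) (a : A) :
    C.lamQ (g : VV) (Submodule.Quotient.mk a) = Submodule.Quotient.mk (C.lam g a) := rfl

/-- the cocycle of the plane group -/
noncomputable def piQ (v : VV) : A ⧸ C.SS := Submodule.Quotient.mk (C.pi (Quotient.out v))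

theorem piQ_mk (g : GG) : C.piQ (g : VV) = Submodule.Quotient.mk (C.pi g) := by
  obtain ⟨l, hl⟩ := QuotientGroup.mk_out_eq_mul LG g
  unfold piQ
  rw [Submodule.Quotient.eq]
  have : C.pi (Quotient.out (g : VV)) = C.pi g + C.pi l.1 := by
    rw [hl, C.coc, C.lam_pi_LG l.2]
  rw [this, add_sub_cancel_left]
  exact ⟨l.1, l.2, rfl⟩

/-- the quotient cocycle -/
noncomputable def Q : Coc ℤ VV (A ⧸ C.SS) where
  lam := C.lamQ
  pi := C.piQ
  bij := by
    constructor
    · intro a b h
      induction a using QuotientGroup.induction_on with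
      | H g =>
        induction b using QuotientGroup.induction_on with
        | H k =>
          rw [C.piQ_mk, C.piQ_mk, Submodule.Quotient.eq] at h
          obtain ⟨l, hl, e⟩ := C.mem_SS.1 h
          have : g = k * l := by
            apply C.inj
            rw [C.coc, C.lam_pi_LG hl, e]; abel
          rw [this]
          exact QuotientGroup.mk_mul_of_mem _ hl
    · intro a
      induction a using Submodule.Quotient.induction_on with
      | H a =>
        refine ⟨(C.iv a : VV), ?_⟩
        rw [C.piQ_mk, C.pi_iv]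
  coc := by
    intro a b
    induction a using QuotientGroup.induction_on with
    | H g =>
      induction b using QuotientGroup.induction_on with
      | H k =>
        rw [← QuotientGroup.mk_mul, C.piQ_mk, C.piQ_mk, C.piQ_mk, C.coc]
        rfl

end Coc

section plane

variable {A : Type*} [AddCommGroup A] (D : Coc ℤ VV A)

include D in
theorem D_hA (n : ℤ) (a : A) (h : n • a = 0) : n = 0 ∨ a = 0 :=
  D.tors_free VV_rk VV_tf VV_hc n a h

include D in
theorem D_cancel (n : ℕ) (hn : n ≠ 0) {a b : A} (h : n • a = n • b) : a = b := by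
  have : (n : ℤ) • (a - b) = 0 := by
    rw [natCast_zsmul, smul_sub, h, sub_self]
  rcases D_hA D _ _ this with h1 | h1
  · exact absurd (by exact_mod_cast h1) hn
  · exact sub_eq_zero.1 h1

theorem D_self (c : ℕ) (hc : c.Coprime 8) (hc8 : c < 8) {v : VV}
    (hv : ∀ p : ℕ, p.Prime → p % 8 = c → ∃ r : VV, r ^ p = v) : (D.lam v - 1) (D.pi v) = 0 := by
  apply D.div_central (D_hA D) VV_rk (fun g => VV_comm _ _) {p | p.Prime ∧ p % 8 = c}
  · rintro p ⟨h1, h2⟩
    obtain ⟨r, hr⟩ := hv p h1 h2
    exact ⟨h1.ne_zero, r, fun g => VV_comm _ _, hr⟩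
  · intro g hg
    apply VV_sq_div
    intro N
    obtain ⟨p, hp, hNp, hp8⟩ := ex_prime c N hc hc8
    exact ⟨p, hp, hNp, hg p ⟨hp, hp8⟩⟩

/-- the operator attached to an element of the plane group -/
noncomputable def mm (v : VV) : Module.End ℤ A := D.lam v - 1

theorem mm_comm (v w : VV) (a : A) : mm D v (mm D w a) = mm D w (mm D v a) :=
  congrArg (fun T : Module.End ℤ A => T a)
    ((D.lam_comm (z := w) (fun g => VV_comm _ _) v).sub_left
      (Commute.one_left _) : Commute (mm D v) (mm D w)).eq

theorem mm_pi (v w : VV) : mm D v (D.pi w) = mm D w (D.pi v) := by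
  have h := D.central (z := v) (fun g => VV_comm _ _) w
  change D.lam w (D.pi v) = D.pi v + mm D v (D.pi w) at h
  change mm D v (D.pi w) = D.lam w (D.pi v) - D.pi v
  rw [h]; abel

theorem lam_mm (v : VV) (a : A) : D.lam v a = a + mm D v a := by
  change D.lam v a = a + (D.lam v a - a)
  abel

theorem mm_mul (v w : VV) (a : A) :
    mm D (v * w) a = mm D v a + mm D w a + mm D v (mm D w a) := by
  change D.lam (v * w) a - a = _
  rw [D.lam_mul_apply, lam_mm D w a, lam_mm D v, map_add]; abel

/-- unipotent and fixed by a power implies fixed -/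
theorem unip {N : Module.End ℤ A} (hA : ∀ (n : ℕ) (a : A), n ≠ 0 → n • a = 0 → a = 0) {m : ℕ}
    (hm : m ≠ 0) (k : ℕ) : ∀ y : A, (N ^ k) y = 0 → ((1 + N) ^ m) y = y → N y = 0 := by
  induction k with
  | zero =>
    intro y h _
    have : y = 0 := h
    rw [this, map_zero]
  | succ k ih =>
    intro y h1 h2
    have hc : Commute ((1 + N) ^ m) N :=
      ((Commute.one_left N).add_left (Commute.refl N)).pow_left m
    have h3 : N (N y) = 0 := by
      apply ih
      · rw [← Module.End.mul_apply, ← pow_succ]; exact h1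
      · have := congrArg (fun T : Module.End ℤ A => T y) hc.eq
        simp only [Module.End.mul_apply] at this
        rw [this, h2]
    have h4 : ∀ j : ℕ, ((1 + N) ^ j) y = y + j • N y := by
      intro j
      induction j with
      | zero => simp
      | succ j ihj =>
        rw [pow_succ', Module.End.mul_apply, ihj, LinearMap.add_apply, Module.End.one_apply,
          map_add, map_nsmul, h3, smul_zero, add_zero, succ_nsmul]
        abel
    rw [h4] at h2
    exact hA m _ hm (by simpa using h2)

theorem nil_cross (v w : VV) : ∃ k : ℕ, ((mm D v) ^ k) (D.pi w) = 0 := by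
  obtain ⟨j, hj⟩ := D.nil (D_hA D) VV_rk (z := v) (fun g => VV_comm _ _)
  refine ⟨j + 1, ?_⟩
  have hc : Commute (mm D w) ((mm D v) ^ j) := by
    apply Commute.pow_right
    exact ((D.lam_comm (z := v) (fun g => VV_comm _ _) w).sub_left (Commute.one_left _))
  rw [pow_succ, Module.End.mul_apply, mm_pi]
  have e := congrArg (fun T : Module.End ℤ A => T (D.pi v)) hc.eq
  simp only [Module.End.mul_apply] at e
  rw [← e]
  change mm D w (((D.lam v - 1) ^ j) (D.pi v)) = 0
  rw [hj, map_zero]

/-- the stabilizer of a point -/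
def stab (a : A) : Subgroup VV where
  carrier := {v | D.lam v a = a}
  one_mem' := by change D.lam 1 a = a; rw [map_one]; rfl
  mul_mem' := by
    intro v w hv hw
    change D.lam v a = a at hv
    change D.lam w a = a at hw
    change D.lam (v * w) a = a
    rw [D.lam_mul_apply, hw, hv]
  inv_mem' := by
    intro v hv
    change D.lam v a = a at hv
    change D.lam v⁻¹ a = a
    conv_lhs => rw [← hv]
    exact D.lam_inv_lam v a

theorem fix_of_basic {a : A} (h1 : D.lam (e1 : VV) a = a) (h2 : D.lam (e2 : VV) a = a) (v : VV)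
    (hn : ∃ k : ℕ, ((mm D v) ^ k) a = 0) : mm D v a = 0 := by
  obtain ⟨m, i, j, hm, hv⟩ := VV_gen v
  obtain ⟨k, hk⟩ := hn
  apply unip (m := m) (fun n a hn h => D_cancel D n hn (by rw [h, smul_zero])) hm k a hk
  have e : (1 + mm D v) = D.lam v := by unfold mm; abel
  rw [e, ← map_pow, hv]
  exact (stab D a).mul_mem ((stab D a).zpow_mem h1 i) ((stab D a).zpow_mem h2 j)

theorem D_trivial (v : VV) (a : A) : mm D v a = 0 := by
  have s1 : mm D (e1 : VV) (D.pi (e1 : VV)) = 0 := D_self D 1 (by norm_num) (by norm_num)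
    (fun p hp h8 => by
      obtain ⟨r, hr⟩ := root1 hp h8
      exact ⟨(r : VV), by rw [← hr]; rfl⟩)
  have s2 : mm D (e2 : VV) (D.pi (e2 : VV)) = 0 := D_self D 3 (by norm_num) (by norm_num)
    (fun p hp h8 => by
      obtain ⟨r, hr⟩ := root2 hp h8
      exact ⟨(r : VV), by rw [← hr]; rfl⟩)
  have s3 : mm D ((e1 : VV) * (e2 : VV)) (D.pi ((e1 : VV) * (e2 : VV))) = 0 :=
    D_self D 5 (by norm_num) (by norm_num)
    (fun p hp h8 => by
      obtain ⟨r, hr⟩ := root3 hp h8
      exact ⟨(r : VV), by rw [← QuotientGroup.mk_mul, ← hr]; rfl⟩)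
  have s4 : mm D (e1 : VV) (D.pi (e2 : VV)) = 0 := by
    have hp : D.pi ((e1 : VV) * (e2 : VV)) =
        D.pi (e1 : VV) + D.pi (e2 : VV) + mm D (e1 : VV) (D.pi (e2 : VV)) := by
      rw [D.coc, lam_mm D]; abel
    have h12 : mm D (e2 : VV) (D.pi (e1 : VV)) = mm D (e1 : VV) (D.pi (e2 : VV)) := mm_pi D _ _
    have k1 : mm D (e1 : VV) (mm D (e1 : VV) (D.pi (e2 : VV))) = 0 := by
      rw [← h12, mm_comm, s1, map_zero]
    have k2 : mm D (e2 : VV) (mm D (e1 : VV) (D.pi (e2 : VV))) = 0 := by
      rw [mm_comm, s2, map_zero]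
    rw [hp, mm_mul] at s3
    simp only [map_add, s1, s2, h12, k1, k2, map_zero, add_zero, zero_add] at s3
    exact D_cancel D 2 (by norm_num) (by rw [two_smul, s3, smul_zero])
  have s5 : mm D (e2 : VV) (D.pi (e1 : VV)) = 0 := by rw [mm_pi]; exact s4
  have f : ∀ {v w : VV}, mm D v (D.pi w) = 0 → D.lam v (D.pi w) = D.pi w := by
    intro v w h; rw [lam_mm D, h, add_zero]
  have t1 : ∀ w : VV, mm D (e1 : VV) (D.pi w) = 0 := by
    intro w
    rw [mm_pi]
    exact fix_of_basic D (f s1) (f s5) w (nil_cross D w _)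
  have t2 : ∀ w : VV, mm D (e2 : VV) (D.pi w) = 0 := by
    intro w
    rw [mm_pi]
    exact fix_of_basic D (f s4) (f s2) w (nil_cross D w _)
  obtain ⟨w, rfl⟩ := D.bij.2 a
  exact fix_of_basic D (f (t1 w)) (f (t2 w)) v (nil_cross D v w)

end plane

end Pool.Agent.R646.B
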