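import Mathlib
import Pool.Agent.R646.B.Pla

/-!
# The contradiction
-/

namespace Pool.Agent.R646.B

namespace Coc

variable {A : Type*} [AddCommGroup A] (C : Coc ℤ GG A)

theorem nn_mem (g : GG) (a : A) : ∃ l ∈ LG, C.pi l = C.nn g a := by
  have h := D_trivial C.Q (g : VV) (Submodule.Quotient.mk a)
  have h2 : (Submodule.Quotient.mk (C.nn g a) : A ⧸ C.SS) = 0 := h
  rw [Submodule.Quotient.mk_eq_zero] at h2
  exact h2

theorem nn_pi_LG {l : GG} (hl : l ∈ LG) (g : GG) : C.nn g (C.pi l) = 0 := by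
  rw [C.nn_apply, C.lam_pi_LG hl, sub_self]

theorem nn_nn_zero (g h : GG) (a : A) : C.nn g (C.nn h a) = 0 := by
  obtain ⟨l, hl, e⟩ := C.nn_mem h a
  rw [← e, C.nn_pi_LG hl]

/-- the central coordinate of an additive element -/
noncomputable def tt (a : A) : ℚ := (C.iv a).1.t

theorem tt_pi (g : GG) : C.tt (C.pi g) = g.1.t := by
  unfold tt
  rw [C.inj (C.pi_iv (C.pi g))]

theorem tt_add {a b : A} (ha : ∃ l ∈ LG, C.pi l = a) (hb : ∃ l ∈ LG, C.pi l = b) :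
    C.tt (a + b) = C.tt a + C.tt b := by
  obtain ⟨l, hl, rfl⟩ := ha
  obtain ⟨m, hm, rfl⟩ := hb
  have e : C.pi l + C.pi m = C.pi (l * m) := by rw [C.coc, C.lam_pi_LG hm]
  rw [e, C.tt_pi, C.tt_pi, C.tt_pi]
  have h1 := mem_LG.1 hl
  change l.1.t + m.1.t + (l.1.x * m.1.y - l.1.y * m.1.x) = _
  rw [h1.1, h1.2]; ring

/-- the bilinear form -/
noncomputable def ph (g h : GG) : ℚ := C.tt (C.nn g (C.pi h))

theorem ph_mul_right (g h k : GG) : C.ph g (h * k) = C.ph g h + C.ph g k := by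
  unfold ph
  rw [← C.tt_add (C.nn_mem _ _) (C.nn_mem _ _)]
  congr 1
  rw [C.coc, C.lam_apply, map_add, map_add, C.nn_nn_zero, add_zero]

theorem ph_mul_left (g h k : GG) : C.ph (g * h) k = C.ph g k + C.ph h k := by
  unfold ph
  rw [← C.tt_add (C.nn_mem _ _) (C.nn_mem _ _)]
  congr 1
  rw [C.nn_mul, C.nn_nn_zero, add_zero]

theorem ph_pow_right (g h : GG) (n : ℕ) : C.ph g (h ^ n) = n * C.ph g h := by
  induction n with
  | zero =>
    have := C.ph_mul_right g 1 1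
    rw [mul_one] at this
    rw [pow_zero]; push_cast; linarith
  | succ n ih => rw [pow_succ, ph_mul_right, ih]; push_cast; ring

theorem ph_pow_left (g h : GG) (n : ℕ) : C.ph (g ^ n) h = n * C.ph g h := by
  induction n with
  | zero =>
    have := C.ph_mul_left 1 1 h
    rw [mul_one] at this
    rw [pow_zero]; push_cast; linarith
  | succ n ih => rw [pow_succ, ph_mul_left, ih]; push_cast; ring

theorem ph_comm : C.ph e1 e2 = C.ph e2 e1 + 2 := by
  have hm : (⟨0, 0, 2⟩ : H3) ∈ GG := by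
    rw [mem_GG]
    refine ⟨fun q hq => ⟨LV.of_loc hq (Loc.zero hq) (Loc.zero hq), LL.of_loc hq ?_⟩, ?_⟩
    · have := Loc.int hq 2
      simpa using this
    · have := Loc.one Nat.prime_two
      simpa using this
  have hl : (⟨_, hm⟩ : GG) ∈ LG := mem_LG.2 ⟨rfl, rfl⟩
  have e : e1 * e2 = e2 * e1 * ⟨_, hm⟩ := by
    apply Subtype.ext
    ext
    · simp [e1, e2]
    · simp [e1, e2]
    · simp [e1, e2]; norm_num
  have h1 : C.pi (e1 * e2) = C.pi e1 + C.pi e2 + C.nn e1 (C.pi e2) := by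
    rw [C.coc, C.lam_apply]; abel
  have h2 : C.pi (e2 * e1 * ⟨_, hm⟩) =
      C.pi e2 + C.pi e1 + C.nn e2 (C.pi e1) + C.pi ⟨_, hm⟩ := by
    rw [C.coc, C.lam_pi_LG hl, C.coc, C.lam_apply]; abel
  rw [e, h2] at h1
  have h3 : C.nn e1 (C.pi e2) = C.nn e2 (C.pi e1) + C.pi ⟨_, hm⟩ := by
    have : C.pi e1 + C.pi e2 + C.nn e1 (C.pi e2) =
        C.pi e1 + C.pi e2 + (C.nn e2 (C.pi e1) + C.pi ⟨_, hm⟩) := by
      rw [← h1]; abel
    exact add_left_cancel this
  unfold ph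
  rw [h3, C.tt_add (C.nn_mem _ _) ⟨_, hl, rfl⟩, C.tt_pi]

theorem ph_self (c : ℕ) (hc : c.Coprime 8) (hc8 : c < 8) {g : GG}
    (hg : ∀ p : ℕ, p.Prime → p % 8 = c → ∃ r : GG, r ^ p = g) : C.ph g g = 0 := by
  apply coord_zero
  intro N
  obtain ⟨p, hp, hNp, hp8⟩ := ex_prime c N hc hc8
  refine ⟨p, hp, hNp, ?_⟩
  obtain ⟨r, hr⟩ := hg p hp hp8
  have hp0 : (p : ℚ) ≠ 0 := by exact_mod_cast hp.ne_zero
  rw [← hr, C.ph_pow_left, C.ph_pow_right]
  rw [show (p : ℚ) * (p * C.ph r r) / p = p * C.ph r r by field_simp]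
  obtain ⟨l, hl, e⟩ := C.nn_mem r (C.pi r)
  have : C.ph r r = l.1.t := by
    unfold ph
    rw [← e, C.tt_pi]
  rw [this]
  exact (weak l.2 hp).2.2

include C in
theorem contradiction : False := by
  have h1 := C.ph_self 1 (by norm_num) (by norm_num) (fun p hp h8 => root1 hp h8)
  have h2 := C.ph_self 3 (by norm_num) (by norm_num) (fun p hp h8 => root2 hp h8)
  have h3 := C.ph_self 5 (by norm_num) (by norm_num) (fun p hp h8 => root3 hp h8)
  have h4 := C.ph_comm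
  rw [C.ph_mul_left, C.ph_mul_right, C.ph_mul_right, h1, h2] at h3
  have h5 : C.ph e1 e2 = 1 := by linarith
  obtain ⟨l, hl, e⟩ := C.nn_mem e1 (C.pi e2)
  have h6 : l.1.t = 1 := by
    rw [← h5]
    unfold ph
    rw [← e, C.tt_pi]
  have h7 := (mem_GG.1 l.2).2
  obtain ⟨hx, hy⟩ := mem_LG.1 hl
  rw [hx, hy, h6] at h7
  obtain ⟨a, b, hb, hab⟩ := h7
  apply hb
  refine ⟨a, ?_⟩
  have : (b : ℚ) = 2 * a := by rw [← hab]; ring
  exact_mod_cast this

end Coc

end Pool.Agent.R646.B
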